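import Pool.Agent.Lib.TTA.Defs

/-!
# Project TTA (MP_950c68_ag): elliptic curves with disjoint sets of bad places, definitions
-/

set_option autoImplicit false

open Polynomial

namespace Pool.Agent.TTA

open Pool.Agent.BSDFF (Place)
open Pool.Agent.HA

section

variable {k K : Type} [Field k] [Field K] [Algebra k K]

/-- The elliptic curve `y ^ 2 = x ^ 3 + A x + B` has good reduction at `v` (`6 ≠ 0` in `k`). -/
def GoodRed (v : Place k K) (A B : K) : Prop :=
  ∃ u : K, u ≠ 0 ∧ u ^ 4 * A ∈ v.ring ∧ u ^ 6 * B ∈ v.ring ∧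
    v.ring.valuation (-4 * (u ^ 4 * A) ^ 3 - 27 * (u ^ 6 * B) ^ 2) = 1

end

section

variable (k : Type) {K : Type} [Field k] [Field K] [Algebra k K]

/-- The property `P (A, B)` holds for `100` per cent of the elliptic curves
`y ^ 2 = x ^ 3 + A x + B` over `K` with the property `F (A, B)`. -/
def AlmostAllIn (F P : K → K → Prop) : Prop :=
  ∀ ε : ℝ, 0 < ε → ∃ M₀ : ℕ, ∀ M ≥ M₀, ∃ N₀ : ℕ, ∀ N ≥ N₀,
    0 < (Fam k K 1 M N fun a => F (a 0) (a 1)).ncard ∧
    ((Fam k K 1 M N fun a => F (a 0) (a 1) ∧ ¬ P (a 0) (a 1)).ncard : ℝ) ≤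
      ε * (Fam k K 1 M N fun a => F (a 0) (a 1)).ncard

/-- For almost all `E_1` with good reduction at the places in `S`, for almost all `E_2` with good
reduction at the places in `S` and at the bad places of `E_1`, ..., for almost all `E_n` with good
reduction at the places in `S` and at the bad places of `E_1`, ..., `E_{n-1}` the property
`P (E_1, ..., E_n)` holds. -/
def NestedG : (n : ℕ) → Set (Place k K) → ((Fin n → K) → (Fin n → K) → Prop) → Prop
  | 0, _, P => P Fin.elim0 Fin.elim0
  | n + 1, S, P => AlmostAllIn k (fun a b => ∀ v ∈ S, GoodRed v a b) fun a b =>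
      NestedG n (S ∪ {v | ¬ GoodRed v a b}) fun A B => P (Fin.cons a A) (Fin.cons b B)

end

end Pool.Agent.TTA
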