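import Pool.Agent.Lib.HA.Defs
import Pool.Agent.Lib.TTN.NestD

/-!
# Project TTA (MP_950c68_ag): fibre products of ALL elliptic surfaces, definitions

`AlmostAllE k P`: `P A B` for `100` per cent of all elliptic curves `y ^ 2 = x ^ 3 + A x + B` over
`K` (families of project HA, `Fam k K 1 M N`). `NestedE k n P`: `P (E_1, ..., E_n)` for almost all
`E_1`, for almost all `E_2`, ..., for almost all `E_n`.

`IndS k δ a`: the discriminant of the cubic of `a` is independent of `δ`: at a place `v` of even
degree `δ` is a unit, and the product of `δ` and of the discriminant is a nonsquare modulo `v`.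
-/

set_option autoImplicit false

open Polynomial

namespace Pool.Agent.TTA

open Pool.Agent.BSDFF (Place)
open Pool.Agent.HA

section

variable (k : Type) {K : Type} [Field k] [Field K] [Algebra k K]

/-- The property `P (A, B)` holds for `100` per cent of the elliptic curves
`y ^ 2 = x ^ 3 + A x + B` over `K`: for every `ε > 0` there is an `M₀`, for every `M ≥ M₀` there is
an `N₀`, such that for all `N ≥ N₀` it fails for at most `ε` times the number of the isomorphism
classes of the curves of height at most `M` and twist degree at most `N`. -/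
def AlmostAllE (P : K → K → Prop) : Prop :=
  ∀ ε : ℝ, 0 < ε → ∃ M₀ : ℕ, ∀ M ≥ M₀, ∃ N₀ : ℕ, ∀ N ≥ N₀,
    0 < (Fam k K 1 M N fun _ => True).ncard ∧
    ((Fam k K 1 M N fun a => ¬ P (a 0) (a 1)).ncard : ℝ) ≤
      ε * (Fam k K 1 M N fun _ => True).ncard

/-- For almost all `E_1`, for almost all `E_2`, ..., for almost all `E_n` the property
`P (E_1, ..., E_n)` holds. -/
def NestedE : (n : ℕ) → ((Fin n → K) → (Fin n → K) → Prop) → Prop
  | 0, P => P Fin.elim0 Fin.elim0
  | n + 1, P => AlmostAllE k fun a b => NestedE n fun A B => P (Fin.cons a A) (Fin.cons b B)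

/-- At a place `v` of even degree `δ` is a unit, and the cubic of a multiple of `a` has the type `C`
(one root modulo `v`) if `δ` is a square modulo `v`, and the type `A` (irreducible modulo `v`)
otherwise. -/
def IndS (δ : K) (a : Fin (2 * 1) → K) : Prop :=
  ∃ u : K, u ≠ 0 ∧ ∃ v : Place k K, Even v.degree ∧ δ ∈ v.ring ∧ red v δ ≠ 0 ∧
    (IsSquare (red v δ) → At v TypC (sc u a)) ∧ (¬ IsSquare (red v δ) → At v TypA (sc u a))

end

end Pool.Agent.TTA
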