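import Pool.Agent.Lib.TTA.Defs
import Pool.Agent.Lib.HA.GenM

/-!
# Project TTA (MP_950c68_ag), module Dens: 100 per cent of the shapes are independent of `δ i`

PROOF. Port of `Pool/Agent/Lib/HA/GenM.lean` (`most_gen`, `g = 1`) with the bad sets
`Z v i = {y | ¬ TypC (pol 1 y)}` if `red v (δ i)` is a square and `{y | ¬ TypA (pol 1 y)}` if not
(`i : Fin r`; density `≤ 1 - c`, `≤ 1 - c * q_v⁻¹`, `dens_A`, `dens_C`; the union has `r` sets
instead of `6`). Let `m` be larger than the degrees of the finitely many `v` at which some `δ i` is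
not a unit (`ord_finite`, `mem_ring_iff`, `red_eq_zero_iff_ord`), take `S` with `m ≤ v.degree` and
`Even v.degree` for `v ∈ S` from `sum_places`. The predicate `¬ ∀ i, IndS k (δ i) a` is stable under
scaling (`sc_sc`), as `shapes_le` needs.
-/

set_option autoImplicit false

open Polynomial

namespace Pool.Agent.TTA

open Pool.Agent.BSDFF Pool.Agent.GBC Pool.Agent.GBU Pool.Agent.HA
open IsLocalRing (ResidueField residue)

/-! Counting (copied from `HA/GenM.lean`) -/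

private theorem Dens_union {α ι : Type*} [Fintype ι] (s : Set α) (t : ι → Set α)
    (hfin : ∀ i, (t i).Finite) (h : s ⊆ ⋃ i, t i) : s.ncard ≤ ∑ i, (t i).ncard := by
  classical
  calc s.ncard ≤ (↑(Finset.univ.biUnion fun i => (hfin i).toFinset) : Set α).ncard := by
        refine Set.ncard_le_ncard (fun x hx => ?_) (Finset.finite_toSet _)
        obtain ⟨i, hi⟩ := Set.mem_iUnion.1 (h hx)
        rw [Finset.mem_coe, Finset.mem_biUnion]
        exact ⟨i, Finset.mem_univ i, (hfin i).mem_toFinset.2 hi⟩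
    _ = (Finset.univ.biUnion fun i => (hfin i).toFinset).card := Set.ncard_coe_finset _
    _ ≤ ∑ i, (hfin i).toFinset.card := Finset.card_biUnion_le
    _ = ∑ i, (t i).ncard := by
        refine Finset.sum_congr rfl fun i _ => ?_
        rw [Set.ncard_eq_toFinset_card _ (hfin i)]

private theorem Dens_prod {ι : Type*} (S : Finset ι) (f w : ι → ℝ) (c : ℝ)
    (h0 : ∀ i ∈ S, 0 ≤ f i) (h1 : ∀ i ∈ S, f i ≤ 1 - c * w i) :
    ∏ i ∈ S, f i ≤ Real.exp (-(c * ∑ i ∈ S, w i)) := by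
  rw [Finset.mul_sum, ← Finset.sum_neg_distrib, Real.exp_sum]
  refine Finset.prod_le_prod h0 fun i hi => (h1 i hi).trans ?_
  have := Real.add_one_le_exp (-(c * w i))
  linarith

/-- The complement of a set of density at least `c`. -/
private theorem Dens_compl {R : Type*} [Finite R] [Nonempty R] (Y : Set R) {c : ℝ}
    (h : c * Nat.card R ≤ Y.ncard) : ((Yᶜ).ncard : ℝ) / Nat.card R ≤ 1 - c := by
  have h1 := Set.ncard_add_ncard_compl Y (Set.toFinite _) (Set.toFinite _)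
  have h2 : (0 : ℝ) < Nat.card R := by exact_mod_cast Nat.card_pos
  rw [div_le_iff₀ h2]
  have h3 : (Y.ncard : ℝ) + (Yᶜ).ncard = Nat.card R := by exact_mod_cast h1
  linarith

private theorem Dens_types : ∃ c : ℝ, 0 < c ∧ ∃ Q₀ : ℕ, ∀ (F : Type)
    [Field F] [Finite F], Q₀ ≤ Nat.card F → (2 : F) ≠ 0 → (3 : F) ≠ 0 →
      ((({y | TypA (pol 1 y)}ᶜ : Set (Fin (2 * 1) → F)).ncard : ℝ) /
        Nat.card (Fin (2 * 1) → F) ≤ 1 - c * (Nat.card F : ℝ)⁻¹) ∧
      ((({y | TypC (pol 1 y)}ᶜ : Set (Fin (2 * 1) → F)).ncard : ℝ) /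
        Nat.card (Fin (2 * 1) → F) ≤ 1 - c * (Nat.card F : ℝ)⁻¹) := by
  obtain ⟨cA, hcA, QA, hA⟩ := dens_A (g := 1) le_rfl
  obtain ⟨cC, hcC, QC, hC⟩ := dens_C (g := 1) le_rfl
  refine ⟨min cA cC, lt_min hcA hcC, QA + QC + 2, fun F _ _ hQ h2 h3 => ?_⟩
  set c := min cA cC with hc
  have hc0 : 0 < c := lt_min hcA hcC
  have hcard : (Nat.card (Fin (2 * 1) → F) : ℝ) = (Nat.card F : ℝ) ^ (2 * 1) := by
    rw [Nat.card_fun, Nat.card_fin]
    push_cast
    rfl
  have hF2 : (2 : ℝ) ≤ Nat.card F := by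
    have : 2 ≤ Nat.card F := le_trans (by omega) hQ
    exact_mod_cast this
  have hF0 : (0 : ℝ) < Nat.card F := by linarith
  have hFi : (Nat.card F : ℝ)⁻¹ ≤ 1 := inv_le_one_of_one_le₀ (by linarith)
  have hpow : (0 : ℝ) < (Nat.card F : ℝ) ^ (2 * 1) := pow_pos hF0 _
  have key : ∀ (Y : Set (Fin (2 * 1) → F)) (d : ℝ), c ≤ d →
      d * (Nat.card F : ℝ) ^ (2 * 1) ≤ Y.ncard →
      ((Yᶜ).ncard : ℝ) / Nat.card (Fin (2 * 1) → F) ≤ 1 - c * (Nat.card F : ℝ)⁻¹ := by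
    intro Y d hd hY
    apply Dens_compl
    rw [hcard]
    refine le_trans ?_ hY
    apply mul_le_mul_of_nonneg_right _ hpow.le
    calc c * (Nat.card F : ℝ)⁻¹ ≤ c * 1 := mul_le_mul_of_nonneg_left hFi hc0.le
      _ ≤ d := by linarith
  refine ⟨key _ cA (min_le_left _ _) (hA F (by omega) ?_),
    key _ cC (min_le_right _ _) (hC F (by omega) h2)⟩
  intro h
  apply h3
  have : ((2 * 1 + 1 : ℕ) : F) = 3 := by norm_num
  rw [← this]
  exact h

variable {k K : Type} [Field k] [Field K] [Algebra k K]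
variable [Finite k] [Algebra (RatFunc k) K] [IsScalarTower k (RatFunc k) K]
  [FiniteDimensional (RatFunc k) K] [Algebra.IsSeparable (RatFunc k) K]

open Classical in
/-- The bad sets. -/
private def Dens_bad (δ : K) (v : Place k K) : Set (Fin (2 * 1) → ResidueField v.ring) :=
  if IsSquare (red v δ) then {y | TypC (pol 1 y)}ᶜ else {y | TypA (pol 1 y)}ᶜ

omit [Algebra (RatFunc k) K] [IsScalarTower k (RatFunc k) K] [FiniteDimensional (RatFunc k) K]
  [Algebra.IsSeparable (RatFunc k) K] [Finite k] in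
private theorem Dens_sc {δ u : K} {a : Fin (2 * 1) → K} (hu : u ≠ 0)
    (h : IndS k δ (sc u a)) : IndS k δ a := by
  obtain ⟨w, hw, v, hv, h1, h2, h3, h4⟩ := h
  rw [sc_sc] at h3 h4
  exact ⟨w * u, mul_ne_zero hw hu, v, hv, h1, h2, h3, h4⟩

omit [Algebra (RatFunc k) K] [IsScalarTower k (RatFunc k) K] [FiniteDimensional (RatFunc k) K]
  [Algebra.IsSeparable (RatFunc k) K] [Finite k] in
private theorem Dens_all {r : ℕ} {δ : Fin r → K} {S : Finset (Place k K)}
    (hS : ∀ v ∈ S, Even v.degree ∧ ∀ i, δ i ∈ v.ring ∧ red v (δ i) ≠ 0)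
    {D : Place k K →₀ ℤ} (hD : ∀ v ∈ S, D v = 0) {a : Fin (2 * 1) → K} (ha : a ∈ Box 1 D)
    (h : ¬ ∀ i, IndS k (δ i) a) : ∃ i : Fin r, ∀ v ∈ S, redV v a ∈ Dens_bad (δ i) v := by
  by_contra hcon
  push Not at hcon
  apply h
  intro i
  obtain ⟨v, hv, h0⟩ := hcon i
  have hint : IntV v a := intV_of_mem_Box ha (hD v hv)
  refine ⟨1, one_ne_zero, v, (hS v hv).1, ((hS v hv).2 i).1, ((hS v hv).2 i).2, ?_, ?_⟩
  · intro hsq
    rw [Dens_bad, if_pos hsq] at h0
    rw [sc_one]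
    exact ⟨hint, Classical.not_not.1 h0⟩
  · intro hsq
    rw [Dens_bad, if_neg hsq] at h0
    rw [sc_one]
    exact ⟨hint, Classical.not_not.1 h0⟩

omit [Algebra (RatFunc k) K] [IsScalarTower k (RatFunc k) K] [FiniteDimensional (RatFunc k) K]
  [Algebra.IsSeparable (RatFunc k) K] [Finite k] in
private theorem Dens_fac {n : ℕ} (hp : (n : k) ≠ 0) (v : Place k K) :
    (n : ResidueField v.ring) ≠ 0 := by
  rw [← map_natCast v.constMap]
  exact fun h => hp ((map_eq_zero _).1 h)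

/-- Many shapes. -/
private theorem Dens_low (hk : ∀ x : K, IsIntegral k x → ∃ c : k, algebraMap k K c = x)
    (hp : ((2 * 1 + 1).factorial : k) ≠ 0) (h3 : ((2 * 1 + 1 : ℕ) : k) ≠ 0) :
    ∃ c : ℝ, 0 < c ∧ ∃ M₀ : ℕ, ∀ M ≥ M₀,
      c * (Nat.card k : ℝ) ^ (wt 1 * M) ≤ (Shapes k K 1 M fun _ => True).ncard := by
  obtain ⟨G, _⟩ := exists_geo k K
  obtain ⟨cA, hcA, QA, hA⟩ := dens_A (g := 1) le_rfl
  obtain ⟨S, hS, hS1⟩ := sum_places (k := k) (K := K) hk QA 1
  have hne : S.Nonempty := by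
    rw [Finset.nonempty_iff_ne_empty]
    rintro rfl
    rw [Finset.sum_empty] at hS1
    linarith
  obtain ⟨v₀, hv₀⟩ := hne
  have hfin : Finite (ResidueField v₀.ring) := finite_res G v₀
  have hk2 : 1 < Nat.card k := Finite.one_lt_card
  have hQ : QA ≤ Nat.card (ResidueField v₀.ring) := by
    rw [card_residue v₀]
    exact (hS v₀ hv₀).1.trans (Nat.lt_pow_self hk2).le
  refine le_shapes G le_rfl hp (v₀ := v₀) hcA ?_
  have hcard : (Nat.card (Fin (2 * 1) → ResidueField v₀.ring) : ℝ) =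
      (Nat.card (ResidueField v₀.ring) : ℝ) ^ (2 * 1) := by
    rw [Nat.card_fun, Nat.card_fin]
    push_cast
    rfl
  rw [hcard]
  exact hA _ hQ (Dens_fac h3 v₀)

omit [Algebra (RatFunc k) K] [IsScalarTower k (RatFunc k) K] [FiniteDimensional (RatFunc k) K]
  [Algebra.IsSeparable (RatFunc k) K] in
/-- The vectors of a box which are not independent. -/
private theorem Dens_box (G : Geo k K) {r : ℕ} (δ : Fin r → K) {S : Finset (Place k K)}
    (hS : ∀ v ∈ S, Even v.degree ∧ ∀ i, δ i ∈ v.ring ∧ red v (δ i) ≠ 0) {c : ℝ}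
    (hb : ∀ v ∈ S, ∀ i : Fin r, ((Dens_bad (δ i) v).ncard : ℝ) /
      Nat.card (Fin (2 * 1) → ResidueField v.ring) ≤ 1 - c * ((Nat.card k : ℝ) ^ v.degree)⁻¹) :
    ∃ C : ℤ, ∀ D : Place k K →₀ ℤ, (∀ v ∈ S, D v = 0) → C ≤ degD D →
      ({a : Fin (2 * 1) → K | a ∈ Box 1 D ∧ (pol 1 a).Separable ∧
        ¬ ∀ i, IndS k (δ i) a}.ncard : ℝ) ≤
        r * (Nat.card (Box 1 D) *
          Real.exp (-(c * ∑ v ∈ S, ((Nat.card k : ℝ) ^ v.degree)⁻¹))) := by
  obtain ⟨C, hC⟩ := sieve G 1 S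
  refine ⟨C, fun D hD hdeg => ?_⟩
  have hfB : (Box 1 D : Set (Fin (2 * 1) → K)).Finite := by
    have := finite_Box G 1 D
    exact Set.toFinite _
  set t : Fin r → Set (Fin (2 * 1) → K) := fun i =>
    {a | a ∈ Box 1 D ∧ ∀ v ∈ S, redV v a ∈ Dens_bad (δ i) v} with ht
  have h1 := Dens_union {a : Fin (2 * 1) → K | a ∈ Box 1 D ∧ (pol 1 a).Separable ∧
    ¬ ∀ i, IndS k (δ i) a} t
    (fun i => hfB.subset fun a ha => ha.1) (fun a ha => by
      obtain ⟨i, hi⟩ := Dens_all hS hD ha.1 ha.2.2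
      exact Set.mem_iUnion.2 ⟨i, ha.1, hi⟩)
  have h2 : ∀ i, ((t i).ncard : ℝ) ≤ Nat.card (Box 1 D) *
      Real.exp (-(c * ∑ v ∈ S, ((Nat.card k : ℝ) ^ v.degree)⁻¹)) := by
    intro i
    have h3 := hC D hD hdeg fun v => Dens_bad (δ i) v
    rw [ht]
    rw [h3]
    refine mul_le_mul_of_nonneg_left ?_ (Nat.cast_nonneg _)
    exact Dens_prod S _ _ c (fun v _ => by positivity) fun v hv => hb v hv i
  calc ({a : Fin (2 * 1) → K | a ∈ Box 1 D ∧ (pol 1 a).Separable ∧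
        ¬ ∀ i, IndS k (δ i) a}.ncard : ℝ)
      ≤ ((∑ i, (t i).ncard : ℕ) : ℝ) := by exact_mod_cast h1
    _ = ∑ i, ((t i).ncard : ℝ) := by push_cast; rfl
    _ ≤ ∑ _i : Fin r, (Nat.card (Box 1 D) *
          Real.exp (-(c * ∑ v ∈ S, ((Nat.card k : ℝ) ^ v.degree)⁻¹)) : ℝ) :=
        Finset.sum_le_sum fun i _ => h2 i
    _ = _ := by
        rw [Finset.sum_const, Finset.card_univ, Fintype.card_fin, nsmul_eq_mul]

theorem most_ind (hk : ∀ x : K, IsIntegral k x → ∃ c : k, algebraMap k K c = x)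
    (h6 : (6 : k) ≠ 0) {r : ℕ} (δ : Fin r → K) (hδ : ∀ i, δ i ≠ 0) (ε : ℝ) (hε : 0 < ε) :
    ∃ M₀ : ℕ, ∀ M ≥ M₀, ((Shapes k K 1 M fun a => ¬ ∀ i, IndS k (δ i) a).ncard : ℝ) ≤
      ε * (Shapes k K 1 M fun _ => True).ncard := by
  have hp : ((2 * 1 + 1).factorial : k) ≠ 0 := by
    have : ((2 * 1 + 1).factorial : k) = 6 := by norm_num [Nat.factorial]
    rw [this]
    exact h6
  have h2 : ((2 : ℕ) : k) ≠ 0 := by
    intro h
    apply h6
    have : (6 : k) = ((2 : ℕ) : k) * 3 := by norm_num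
    rw [this, h, zero_mul]
  have h3 : ((3 : ℕ) : k) ≠ 0 := by
    intro h
    apply h6
    have : (6 : k) = ((3 : ℕ) : k) * 2 := by norm_num
    rw [this, h, zero_mul]
  obtain ⟨G, _⟩ := exists_geo k K
  obtain ⟨cL, hcL, ML, hL⟩ := Dens_low (k := k) (K := K) hk hp (by exact_mod_cast h3)
  obtain ⟨c, hc, Q, hQ⟩ := Dens_types
  obtain ⟨h, d₀, hU⟩ := shapes_le G (g := 1) le_rfl
  obtain ⟨Bb, hBb⟩ := card_Box_le G 1
  have hk2 : 1 < Nat.card k := Finite.one_lt_card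
  have hq : (1 : ℝ) < Nat.card k := by exact_mod_cast hk2
  have hq0 : (0 : ℝ) < Nat.card k := by linarith
  set q : ℝ := (Nat.card k : ℝ) with hqdef
  -- the bad places
  have hbadfin : (⋃ i, {w : Place k K | ord w (δ i) ≠ 0}).Finite :=
    Set.finite_iUnion fun i => ord_finite G (hδ i)
  obtain ⟨m, hm⟩ : ∃ m : ℕ, ∀ w : Place k K, m ≤ w.degree → ∀ i, ord w (δ i) = 0 := by
    refine ⟨hbadfin.toFinset.sup (fun w => w.degree) + 1, fun w hw i => ?_⟩
    by_contra hne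
    have hmem : w ∈ hbadfin.toFinset := hbadfin.mem_toFinset.2 (Set.mem_iUnion.2 ⟨i, hne⟩)
    have := Finset.le_sup (f := fun w : Place k K => w.degree) hmem
    omega
  -- the constant
  set A : ℝ := (h + 1) * ((r + 1) * ((Bb + 1) * q ^ (wt 1 * d₀))) with hA
  have hA0 : 0 < A := by positivity
  set δ' : ℝ := ε * cL / A with hδ'
  have hδ0 : 0 < δ' := by positivity
  obtain ⟨S, hS, hSB⟩ := sum_places (k := k) (K := K) hk (m + Q) (-Real.log δ' / c)
  have hexp : Real.exp (-(c * ∑ v ∈ S, (q ^ v.degree)⁻¹)) ≤ δ' := by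
    rw [← Real.le_log_iff_exp_le hδ0]
    rw [div_le_iff₀ hc] at hSB
    linarith
  have hfin : ∀ v : Place k K, Finite (ResidueField v.ring) := fun v => finite_res G v
  obtain ⟨C, hC⟩ := Dens_box G δ (S := S)
    (fun v hv => ⟨(hS v hv).2, fun i => by
      have ho : ord v (δ i) = 0 := hm v ((by omega : m ≤ m + Q).trans (hS v hv).1) i
      have hmem : δ i ∈ v.ring := (mem_ring_iff v (hδ i)).2 ho.ge
      refine ⟨hmem, fun h0 => ?_⟩
      have := (red_eq_zero_iff_ord v (hδ i) hmem).1 h0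
      omega⟩)
    (c := c) (fun v hv i => by
      have := hfin v
      have h1 := hQ (ResidueField v.ring) (by
        rw [card_residue v]
        exact ((by omega : Q ≤ m + Q).trans (hS v hv).1).trans (Nat.lt_pow_self hk2).le)
        (by exact_mod_cast Dens_fac h2 v) (by exact_mod_cast Dens_fac h3 v)
      rw [card_residue v] at h1
      push_cast at h1
      rw [Dens_bad]
      split_ifs
      · exact h1.2
      · exact h1.1)
  refine ⟨max ML C.toNat, fun M hM => ?_⟩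
  have hM1 : ML ≤ M := (le_max_left _ _).trans hM
  have hM2 : C ≤ M := by
    have := (le_max_right _ _).trans hM
    omega
  obtain ⟨R, hRc, hRD, hR⟩ := hU S M
  obtain ⟨-, hR2⟩ := hR (fun a => ¬ ∀ i, IndS k (δ i) a) fun u a hu ha hcon =>
    ha fun i => Dens_sc hu (hcon i)
  have hbox : ∀ D ∈ R,
      ({a : Fin (2 * 1) → K | a ∈ Box 1 D ∧ (pol 1 a).Separable ∧
        ¬ ∀ i, IndS k (δ i) a}.ncard : ℝ) ≤
        (r + 1) * ((Bb + 1) * q ^ (wt 1 * (M + d₀)) * δ') := by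
    intro D hD
    obtain ⟨hD0, hD1, hD2⟩ := hRD D hD
    refine (hC D hD0 (hM2.trans hD1)).trans ?_
    refine mul_le_mul (by linarith) ?_ (by positivity) (by positivity)
    refine mul_le_mul ?_ hexp (Real.exp_pos _).le (by positivity)
    have h1 := hBb D (le_trans (by positivity) hD1)
    have h2 : (Nat.card (Box 1 D) : ℝ) ≤ Bb * q ^ (wt 1 * (degD D).toNat) := by
      rw [hqdef]
      exact_mod_cast h1
    refine h2.trans ?_
    refine mul_le_mul (by linarith) ?_ (by positivity) (by positivity)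
    refine pow_le_pow_right₀ hq.le (Nat.mul_le_mul_left _ ?_)
    omega
  calc ((Shapes k K 1 M fun a => ¬ ∀ i, IndS k (δ i) a).ncard : ℝ)
      ≤ ((∑ D ∈ R, {a : Fin (2 * 1) → K | a ∈ Box 1 D ∧ (pol 1 a).Separable ∧
          ¬ ∀ i, IndS k (δ i) a}.ncard : ℕ) : ℝ) := by exact_mod_cast hR2
    _ = ∑ D ∈ R, ({a : Fin (2 * 1) → K | a ∈ Box 1 D ∧ (pol 1 a).Separable ∧
          ¬ ∀ i, IndS k (δ i) a}.ncard : ℝ) := by push_cast; rfl
    _ ≤ ∑ _D ∈ R, (r + 1) * ((Bb + 1) * q ^ (wt 1 * (M + d₀)) * δ') := Finset.sum_le_sum hbox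
    _ = R.card * ((r + 1) * ((Bb + 1) * q ^ (wt 1 * (M + d₀)) * δ')) := by
        rw [Finset.sum_const, nsmul_eq_mul]
    _ ≤ (h + 1) * ((r + 1) * ((Bb + 1) * q ^ (wt 1 * (M + d₀)) * δ')) := by
        refine mul_le_mul_of_nonneg_right ?_ (by positivity)
        have : (R.card : ℝ) ≤ h := by exact_mod_cast hRc
        linarith
    _ = A * δ' * q ^ (wt 1 * M) := by
        rw [hA, Nat.mul_add, pow_add]
        ring
    _ = ε * (cL * q ^ (wt 1 * M)) := by
        rw [hδ', mul_div_cancel₀ _ hA0.ne']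
        ring
    _ ≤ ε * (Shapes k K 1 M fun _ => True).ncard :=
        mul_le_mul_of_nonneg_left (hL M hM1) hε.le

end Pool.Agent.TTA
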