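import Pool.Agent.Lib.TTA.Defs
import Pool.Agent.Lib.HA.Ell

/-!
# Project TTA (MP_950c68_ag), module Disc: the discriminant is independent of `δ`

`disc_ind`: `disc (sc u a) = (u ^ 3) ^ 2 * disc a` for `disc a = -4 a_0 ^ 3 - 27 a_1 ^ 2`, so it is
enough to show that `δ * disc b = c * s ^ 2` is impossible for `b = sc u a`. Modulo `v` the
discriminant of the reduction `f = X ^ 3 + C b_0 * X + C b_1` over the residue field is a nonsquare
if `TypC f` (`Disc_C`: `disc f = (r ^ 2 - 4 t) (2 r ^ 2 + t) ^ 2`) and a nonzero square if `TypA f`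
(`Disc_A`). So `δ * disc b` is a nonsquare unit at `v`; but the constants are squares in the residue
field, because the degree of `v` is even (`Disc_const`).

`root_ne`: the polynomial is irreducible.
-/

set_option autoImplicit false

open Polynomial

namespace Pool.Agent.TTA

open Pool.Agent.BSDFF Pool.Agent.GBC Pool.Agent.GBU Pool.Agent.HA
open IsLocalRing (ResidueField residue)

section fin

variable {F : Type} [Field F]

/-- An irreducible cubic over a finite field has as discriminant a nonzero square. -/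
private theorem Disc_A [Finite F] {A B : F}
    (h : Irreducible (X ^ 3 + C A * X + C B : F[X])) :
    -4 * A ^ 3 - 27 * B ^ 2 ≠ 0 ∧ IsSquare (-4 * A ^ 3 - 27 * B ^ 2) := by
  classical
  set P : Cubic F := ⟨1, 0, A, B⟩ with hP
  have hPf : P.toPoly = X ^ 3 + C A * X + C B := by
    rw [Cubic.toPoly, hP]
    simp
  have hPd : P.discr = -4 * A ^ 3 - 27 * B ^ 2 := by
    rw [Cubic.discr, hP]
    ring
  have ha : P.a ≠ 0 := one_ne_zero
  rw [← hPf] at h
  rw [← hPd]
  have : Fact (Irreducible P.toPoly) := ⟨h⟩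
  have hf0 : P.toPoly ≠ 0 := h.ne_zero
  have hdeg : P.toPoly.natDegree = 3 := Cubic.natDegree_of_a_ne_zero ha
  let L := AdjoinRoot P.toPoly
  have hfd : FiniteDimensional F L := (AdjoinRoot.powerBasis hf0).finite
  have hrk : Module.finrank F L = 3 := by
    rw [(AdjoinRoot.powerBasis hf0).finrank, AdjoinRoot.powerBasis_dim, hdeg]
  have hfin : Finite L := Module.finite_of_finite F
  have hgal : IsGalois F L := inferInstance
  have hsp : (P.toPoly.map (algebraMap F L)).Splits := by
    have h1 := Normal.splits (inferInstance : Normal F L) (AdjoinRoot.root P.toPoly)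
    have h2 : minpoly F (AdjoinRoot.root P.toPoly) = P.toPoly * C (P.toPoly.leadingCoeff)⁻¹ :=
      AdjoinRoot.minpoly_root hf0
    have h3 : P.toPoly.leadingCoeff = 1 := by
      rw [Cubic.leadingCoeff_of_a_ne_zero ha]
    rw [h2, h3, inv_one, C_1, mul_one] at h1
    exact h1
  obtain ⟨x, y, z, h3⟩ := (Cubic.splits_iff_roots_eq_three (φ := algebraMap F L) ha).1 hsp
  have h5 := Cubic.discr_eq_prod_three_roots ha h3
  have hsep : P.toPoly.Separable := PerfectField.separable_of_irreducible h
  have hd0 : P.discr ≠ 0 := by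
    rw [Cubic.discr_ne_zero_iff_roots_nodup ha hsp, Cubic.roots, Cubic.map_toPoly]
    exact nodup_roots (Polynomial.Separable.map hsep)
  refine ⟨hd0, ?_⟩
  by_contra hsq
  have hirr : Irreducible (X ^ 2 - C P.discr : F[X]) := by
    refine X_pow_sub_C_irreducible_of_prime Nat.prime_two fun b hb => hsq ⟨b, ?_⟩
    rw [← hb, sq]
  set d : L := algebraMap F L P.a * algebraMap F L P.a * (x - y) * (x - z) * (y - z) with hd
  have hr : aeval d (X ^ 2 - C P.discr : F[X]) = 0 := by
    rw [map_sub, map_pow, aeval_X, aeval_C, h5, sub_self]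
  have hmp := minpoly.eq_of_irreducible_of_monic hirr hr (monic_X_pow_sub_C _ two_ne_zero)
  have h7 := minpoly.degree_dvd (IsIntegral.of_finite F d)
  rw [← hmp, natDegree_X_pow_sub_C, hrk] at h7
  omega

/-- A cubic with exactly one root has as discriminant a nonsquare. -/
private theorem Disc_C (h6 : (6 : F) ≠ 0) {A B : F} {p h : F[X]} (hpm : p.Monic)
    (hp : Irreducible p) (hp2 : p.natDegree = 2) (hhm : h.Monic)
    (hf : (X ^ 3 + C A * X + C B : F[X]) = p * h) :
    ¬ IsSquare (-4 * A ^ 3 - 27 * B ^ 2) := by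
  have h2 : (2 : F) ≠ 0 := by
    intro h
    apply h6
    have : (6 : F) = 2 * 3 := by norm_num
    rw [this, h, zero_mul]
  have hd3 : (X ^ 3 + C A * X + C B : F[X]).natDegree = 3 := by compute_degree!
  have hh1 : h.natDegree = 1 := by
    rw [hf, hpm.natDegree_mul hhm, hp2] at hd3
    omega
  obtain ⟨b, c, hbc⟩ : ∃ b c : F, p = X ^ 2 + C b * X + C c := by
    refine ⟨p.coeff 1, p.coeff 0, ?_⟩
    have h1 := p.as_sum_range_C_mul_X_pow
    rw [hp2, Finset.sum_range_succ, Finset.sum_range_succ, Finset.sum_range_one] at h1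
    have h3 : p.coeff 2 = 1 := by
      have := hpm.coeff_natDegree
      rwa [hp2] at this
    rw [h3, C_1, one_mul, pow_zero, mul_one, pow_one] at h1
    rw [← sub_eq_zero]
    nth_rw 1 [h1]
    ring
  obtain ⟨e, he⟩ : ∃ e : F, h = X + C e := by
    refine ⟨h.coeff 0, ?_⟩
    exact hhm.eq_X_add_C hh1
  rw [hbc, he] at hf
  have e2 := congrArg (fun q => coeff q 2) hf
  have e1 := congrArg (fun q => coeff q 1) hf
  have e0 := congrArg (fun q => coeff q 0) hf
  have hex : ((X ^ 2 + C b * X + C c) * (X + C e) : F[X]) =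
      X ^ 3 + C (b + e) * X ^ 2 + C (b * e + c) * X + C (c * e) := by
    simp only [C_add, C_mul]
    ring
  rw [hex] at e2 e1 e0
  simp only [coeff_add, coeff_C_mul, coeff_X_pow, coeff_X, coeff_C] at e2 e1 e0
  norm_num at e2 e1 e0
  have he' : e = -b := by linear_combination -e2
  subst he'
  rintro ⟨w, hw⟩
  have hroot : ∀ x : F, x ^ 2 + b * x + c ≠ 0 := by
    intro x hx
    have h1 : p.IsRoot x := by
      rw [hbc, IsRoot.def]
      simp only [eval_add, eval_pow, eval_X, eval_mul, eval_C]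
      exact hx
    have h3 := degree_eq_one_of_irreducible_of_root hp h1
    have h4 : p.natDegree = 1 := natDegree_eq_of_degree_eq_some h3
    omega
  have h4 : 2 * b ^ 2 + c ≠ 0 := by
    intro h
    apply hroot b
    linear_combination h
  have h5 : (b ^ 2 - 4 * c) * (2 * b ^ 2 + c) ^ 2 = w * w := by
    rw [← hw, e1, e0]
    ring
  set u : F := w / (2 * b ^ 2 + c) with hu
  have h8 : u ^ 2 = b ^ 2 - 4 * c := by
    rw [hu, div_pow, div_eq_iff (pow_ne_zero 2 h4), h5, sq]
  apply hroot ((-b + u) / 2)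
  have h9 : (2 : F) ^ 2 * (((-b + u) / 2) ^ 2 + b * ((-b + u) / 2) + c) = 0 := by
    field_simp
    linear_combination h8
  exact (mul_eq_zero.1 h9).resolve_left (pow_ne_zero 2 h2)

/-- The elements of a finite field `k` of odd characteristic are squares in the extensions of even
degree. -/
private theorem Disc_const {k : Type} [Field k] [Finite k] [Finite F] (h2 : (2 : k) ≠ 0) (φ : k →+* F)
    {n : ℕ} (hn : Even n) (hc : Nat.card F = Nat.card k ^ n) (c : k) : IsSquare (φ c) := by
  classical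
  rcases eq_or_ne c 0 with rfl | hc0
  · rw [map_zero]
    exact IsSquare.zero
  have h2F : ringChar F ≠ 2 := by
    intro h
    apply h2
    apply φ.injective
    rw [map_ofNat, map_zero]
    have := ringChar.Nat.cast_ringChar (R := F)
    rw [h] at this
    exact_mod_cast this
  have h2k : ringChar k ≠ 2 := by
    intro h
    apply h2
    have := ringChar.Nat.cast_ringChar (R := k)
    rw [h] at this
    exact_mod_cast this
  let _ := Fintype.ofFinite k
  let _ := Fintype.ofFinite F
  have hφ0 : φ c ≠ 0 := (map_ne_zero φ).2 hc0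
  rw [FiniteField.isSquare_iff h2F hφ0]
  obtain ⟨m, rfl⟩ := hn
  rw [Nat.card_eq_fintype_card, Nat.card_eq_fintype_card] at hc
  set q := Fintype.card k with hq
  have hqo : q % 2 = 1 := FiniteField.odd_card_of_char_ne_two h2k
  have hq1 : 1 < q := Fintype.one_lt_card
  have h1 : c ^ (q - 1) = 1 := FiniteField.pow_card_sub_one_eq_one c hc0
  have h3 : q ^ m % 2 = 1 := by
    rw [Nat.pow_mod, hqo, one_pow, Nat.one_mod]
  obtain ⟨e, he⟩ : q - 1 ∣ q ^ m - 1 := by
    have := Nat.sub_dvd_pow_sub_pow q 1 m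
    rwa [one_pow] at this
  have h4 : Fintype.card F / 2 = (q - 1) * (e * ((q ^ m + 1) / 2)) := by
    rw [hc, pow_add, ← mul_assoc, ← he]
    obtain ⟨t, ht⟩ : ∃ t, q ^ m = 2 * t + 1 := ⟨q ^ m / 2, by omega⟩
    rw [ht]
    have h5 : (2 * t + 1 + 1) / 2 = t + 1 := by omega
    have h6 : 2 * t + 1 - 1 = 2 * t := by omega
    rw [h5, h6]
    have h7 : (2 * t + 1) * (2 * t + 1) = 2 * (2 * t * (t + 1)) + 1 := by ring
    rw [h7]
    omega
  rw [h4, ← map_pow, pow_mul, h1, one_pow, map_one]

end fin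

variable {k K : Type} [Field k] [Field K] [Algebra k K]
variable [Finite k] [Algebra (RatFunc k) K] [IsScalarTower k (RatFunc k) K]
  [FiniteDimensional (RatFunc k) K] [Algebra.IsSeparable (RatFunc k) K]

omit [Finite k] [Algebra (RatFunc k) K] [IsScalarTower k (RatFunc k) K]
  [FiniteDimensional (RatFunc k) K] [Algebra.IsSeparable (RatFunc k) K] in
private theorem Disc_irreducible {g : ℕ} {v : Place k K} {a : Fin (2 * g) → K}
    (h : At v TypA a) : Irreducible (pol g a) := by
  obtain ⟨hi, ht⟩ := h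
  let b : Fin (2 * g) → v.ring := fun j => ⟨a j, hi j⟩
  have h1 : (pol g b).map (residue v.ring) = pol g (redV v a) := by
    rw [map_pol]
    congr 1
    funext j
    exact (red_of_mem v (hi j)).symm
  have h2 : (pol g b).map (algebraMap v.ring K) = pol g a := by
    rw [map_pol]
    rfl
  have hm : (pol g b).Monic := pol_monic _ b
  have h3 : Irreducible (pol g b) := by
    refine Monic.irreducible_of_irreducible_map (residue v.ring) _ hm ?_
    rw [h1]
    exact ht
  rw [← h2]
  exact (Monic.irreducible_iff_irreducible_map_fraction_map (K := K) hm).1 h3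

theorem disc_ind (hk : ∀ x : K, IsIntegral k x → ∃ c : k, algebraMap k K c = x)
    (h6 : (6 : k) ≠ 0) {δ : K} {a : Fin (2 * 1) → K} (h : IndS k δ a) (c s : K)
    (hc : IsAlgebraic k c) : δ * (-4 * a 0 ^ 3 - 27 * a 1 ^ 2) ≠ c * s ^ 2 := by
  intro hE
  obtain ⟨u, hu, v, hv, hδ, hδ0, hC, hA⟩ := h
  have hcard := card_residue v
  have hF : Finite (ResidueField v.ring) := by
    apply Nat.finite_of_card_ne_zero
    rw [hcard]
    exact pow_ne_zero _ Nat.card_pos.ne'
  have h2k : (2 : k) ≠ 0 := by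
    intro h
    apply h6
    have : (6 : k) = 2 * 3 := by norm_num
    rw [this, h, zero_mul]
  have h6' : (6 : ResidueField v.ring) ≠ 0 := by
    intro h
    apply h6
    apply v.constMap.injective
    rw [map_ofNat, h, map_zero]
  -- the vector `b`
  set b : Fin (2 * 1) → K := sc u a with hb
  have hb0 : b 0 = u ^ 2 * a 0 := rfl
  have hb1 : b 1 = u ^ 3 * a 1 := rfl
  have hE' : δ * (-4 * b 0 ^ 3 - 27 * b 1 ^ 2) = c * (s * u ^ 3) ^ 2 := by
    rw [hb0, hb1]
    linear_combination u ^ 6 * hE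
  have hint : IntV v b := by
    by_cases hsq : IsSquare (red v δ)
    · exact (hC hsq).1
    · exact (hA hsq).1
  set A : ResidueField v.ring := redV v b 0 with hAd
  set B : ResidueField v.ring := redV v b 1 with hBd
  have e0 : A = residue v.ring ⟨b 0, hint 0⟩ := by
    rw [hAd, redV, red_of_mem]
  have e1 : B = residue v.ring ⟨b 1, hint 1⟩ := by
    rw [hBd, redV, red_of_mem]
  have eδ : red v δ = residue v.ring ⟨δ, hδ⟩ := red_of_mem v hδ
  -- the reduction is a nonsquare
  have hns : red v δ * (-4 * A ^ 3 - 27 * B ^ 2) ≠ 0 ∧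
      ¬ IsSquare (red v δ * (-4 * A ^ 3 - 27 * B ^ 2)) := by
    by_cases hsq : IsSquare (red v δ)
    · obtain ⟨-, p, q, hpm, hp, hp2, hqm, -, -, hpq⟩ := hC hsq
      rw [pol_one] at hpq
      have h1 := Disc_C h6' hpm hp hp2 hqm hpq
      have h2 : -4 * A ^ 3 - 27 * B ^ 2 ≠ 0 := by
        intro h
        apply h1
        rw [h]
        exact IsSquare.zero
      refine ⟨mul_ne_zero hδ0 h2, ?_⟩
      rintro ⟨w, hw⟩
      apply h1
      obtain ⟨t, ht⟩ := hsq
      have ht0 : t ≠ 0 := by
        rintro rfl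
        exact hδ0 (by rw [ht, mul_zero])
      refine ⟨w / t, ?_⟩
      rw [ht] at hw
      field_simp
      linear_combination hw
    · obtain ⟨-, hp⟩ := hA hsq
      rw [pol_one] at hp
      obtain ⟨h1, t, ht⟩ := Disc_A hp
      refine ⟨mul_ne_zero hδ0 h1, ?_⟩
      rintro ⟨w, hw⟩
      apply hsq
      have ht' : -4 * A ^ 3 - 27 * B ^ 2 = t * t := ht
      have ht0 : t ≠ 0 := by
        rintro rfl
        exact h1 (by rw [ht, mul_zero])
      refine ⟨w / t, ?_⟩
      rw [ht'] at hw
      field_simp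
      linear_combination hw
  -- the constant
  obtain ⟨c₀, rfl⟩ := hk c hc.isIntegral
  have hcr : algebraMap k K c₀ ∈ v.ring := v.const_mem c₀
  have hconst : residue v.ring ⟨algebraMap k K c₀, hcr⟩ = v.constMap c₀ := rfl
  obtain ⟨D, hD⟩ : ∃ D : v.ring, D = (⟨δ, hδ⟩ : v.ring) *
      (-4 * (⟨b 0, hint 0⟩ : v.ring) ^ 3 - 27 * (⟨b 1, hint 1⟩ : v.ring) ^ 2) := ⟨_, rfl⟩
  have hDK : (D : K) = δ * (-4 * b 0 ^ 3 - 27 * b 1 ^ 2) := by
    rw [hD]
    rfl
  have hDr : residue v.ring D = red v δ * (-4 * A ^ 3 - 27 * B ^ 2) := by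
    rw [hD, eδ, e0, e1]
    simp only [map_mul, map_pow, map_sub, map_neg, map_ofNat]
  have hc0 : c₀ ≠ 0 := by
    rintro rfl
    rw [map_zero, zero_mul] at hE'
    apply hns.1
    rw [← hDr]
    have : D = 0 := by
      apply Subtype.ext
      rw [hDK, hE']
      rfl
    rw [this, map_zero]
  have hcK : algebraMap k K c₀ ≠ 0 := (_root_.map_ne_zero _).2 hc0
  set S : K := s * u ^ 3 with hS
  have hS2 : S ^ 2 ∈ v.ring := by
    have h1 : S ^ 2 = algebraMap k K c₀⁻¹ * (D : K) := by
      rw [hDK, hE', map_inv₀]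
      field_simp
    rw [h1]
    exact v.ring.mul_mem _ _ (v.const_mem _) D.2
  have hSm : S ∈ v.ring := by
    rcases v.ring.mem_or_inv_mem S with h | h
    · exact h
    · rcases eq_or_ne S 0 with h0 | h0
      · rw [h0]
        exact v.ring.zero_mem
      · have h1 : S = S ^ 2 * S⁻¹ := by
          field_simp
        rw [h1]
        exact v.ring.mul_mem _ _ hS2 h
  apply hns.2
  have h7 : D = (⟨algebraMap k K c₀, hcr⟩ : v.ring) * (⟨S, hSm⟩ : v.ring) ^ 2 := by
    apply Subtype.ext
    rw [hDK, hE']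
    rfl
  rw [← hDr, h7, map_mul, map_pow, hconst]
  exact (Disc_const h2k v.constMap hv hcard c₀).mul (IsSquare.sq _)

theorem root_ne {a : Fin (2 * 1) → K} (h : ∃ v : Place k K, At v TypA a) (x : K) :
    x ^ 3 + a 0 * x + a 1 ≠ 0 := by
  intro hx
  obtain ⟨v, hv⟩ := h
  have h1 := Disc_irreducible hv
  rw [pol_one] at h1
  have h2 : (X ^ 3 + C (a 0) * X + C (a 1) : K[X]).IsRoot x := by
    rw [IsRoot.def]
    simp only [eval_add, eval_pow, eval_X, eval_mul, eval_C]
    exact hx
  have h3 := degree_eq_one_of_irreducible_of_root h1 h2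
  have h4 : (X ^ 3 + C (a 0) * X + C (a 1) : K[X]).natDegree = 1 :=
    natDegree_eq_of_degree_eq_some h3
  have h5 : (X ^ 3 + C (a 0) * X + C (a 1) : K[X]).natDegree = 3 := by compute_degree!
  omega

end Pool.Agent.TTA
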