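import Pool.Agent.Lib.TTC.TateD
import Pool.Agent.Lib.SmJ.L.SelDefs
import Pool.Agent.Lib.Sm.L.StmtW
import Pool.Agent.Lib.SmN.Stm2
import Pool.Agent.Lib.HA.Defs

/-!
# The definitions of MP_950c68_ag.FibreProducts

The statement and its meaning are explained in
`Pool/Agent/Results/MP_950c68_ag/FibreProducts.lean`.
-/

set_option autoImplicit false

open Polynomial TensorProduct Pool.Agent.SmN.Stm Pool.Agent.HA
open Pool.Agent.BSDFF (Place)

namespace Pool.Agent.TTA.FP

section

variable {K : Type} [Field K] (Ω : Type) [Field Ω] [Algebra K Ω] {n : ℕ}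

/-- The `2`-adic Tate module `T_2 (W)`: the sequences `P_0 = 0, P_1, P_2, ...` in `W (Ω)` with
`2 P_{i+1} = P_i`. -/
def T2 (W : WeierstrassCurve K) : Type := TTC.Tate (Sm.L.Pts Ω W)

noncomputable instance (W : WeierstrassCurve K) : AddCommGroup (T2 Ω W) :=
  AddSubgroup.toAddCommGroup (TTC.TateG (Sm.L.Pts Ω W))

noncomputable instance (W : WeierstrassCurve K) : Module ℤ_[2] (T2 Ω W) :=
  TTC.instModulePadicIntOfNatNatTate

/-- The action of `s` on `T_2 (W)`. -/
noncomputable def actT2 (W : WeierstrassCurve K) (s : Ω ≃ₐ[K] Ω) : T2 Ω W →ₗ[ℤ_[2]] T2 Ω W :=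
  TTC.tateMap (Sm.L.gal Ω W s)

/-- `T_2 (W 1) ⊗ ... ⊗ T_2 (W n) ⊗ ℚ_2 / ℤ_2`, tensor products over `ℤ_2`. -/
def ModN (W : Fin n → WeierstrassCurve K) : Type :=
  (⨂[ℤ_[2]] i, T2 Ω (W i)) ⊗[ℤ_[2]] (ℚ_[2] ⧸ (1 : Submodule ℤ_[2] ℚ_[2]))

noncomputable instance (W : Fin n → WeierstrassCurve K) : AddCommGroup (ModN Ω W) :=
  TensorProduct.addCommGroup

noncomputable instance (W : Fin n → WeierstrassCurve K) : Module ℤ_[2] (ModN Ω W) :=
  TensorProduct.instModule

/-- The action of `s` on `ModN Ω W` by the tensor product of the actions on the Tate modules. -/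
noncomputable def actMod (W : Fin n → WeierstrassCurve K) (s : Ω ≃ₐ[K] Ω) :
    ModN Ω W →ₗ[ℤ_[2]] ModN Ω W :=
  TensorProduct.map (PiTensorProduct.map fun i => actT2 Ω (W i) s) LinearMap.id

/-- The power `-m` of the `2`-adic cyclotomic character. -/
noncomputable def cycPow (m : ℕ) (s : Ω ≃ₐ[K] Ω) : ℤ_[2]ˣ :=
  (cyclotomicCharacter Ω 2 s.toRingEquiv)⁻¹ ^ m

/-- The action of `s` on `ModN Ω W`, twisted by the power `-m` of the cyclotomic character. -/
noncomputable def actN (W : Fin n → WeierstrassCurve K) (m : ℕ) (s : Ω ≃ₐ[K] Ω) :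
    ModN Ω W →+ ModN Ω W :=
  ((cycPow Ω m s : ℤ_[2]) • actMod Ω W s).toAddMonoidHom

end

section

variable (k : Type) {K : Type} [Field k] [Field K] [Algebra k K] {n : ℕ}

/-- The elliptic curve `y ^ 2 = x ^ 3 + A x + B`. -/
def curve (A B : K) : WeierstrassCurve K := ⟨0, 0, 0, A, B⟩

/-- The discriminant of `x ^ 3 + A x + B`. -/
def disc (A B : K) : K := -4 * A ^ 3 - 27 * B ^ 2

/-- The hypotheses on the curves `y ^ 2 = x ^ 3 + A_i x + B_i`: no cubic has a root in `K`, and for
every nonempty `J ⊆ {1, ..., n}` the product of the discriminants of the cubics, `i ∈ J`, is not a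
constant times a square. -/
structure Independent (A B : Fin n → K) : Prop where
  root : ∀ i x, x ^ 3 + A i * x + B i ≠ 0
  disc : ∀ J : Finset (Fin n), J.Nonempty → ∀ c s : K, IsAlgebraic k c →
    ∏ i ∈ J, disc (A i) (B i) ≠ c * s ^ 2

/-- The Selmer group of the tensor product of the Tate modules of the curves
`y ^ 2 = x ^ 3 + A_i x + B_i`, `1 ≤ i ≤ n`, tensored with `ℚ_2 / ℤ_2` and twisted by the power
`-(n - 1) / 2` of the cyclotomic character, has corank at most `1`. -/
def SelmerLEOne (A B : Fin n → K) : Prop :=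
  ∃ r ≤ 1, SmJ.L.HasCorank k
    (actN (SeparableClosure K) (fun i => curve (A i) (B i)) ((n - 1) / 2)) r

/-- The conclusions for the curves `E_i : y ^ 2 = x ^ 3 + A_i x + B_i`: they are independent,
`SelmerLEOne` for every choice of an odd number `m ≥ 3` of the curves, and for each of the curves
the Selmer groups of `V = E_i [2 ^ ∞]` and of `V ⊗ Z[ε] / ε ^ 2` have the same corank `r ≤ 1`: the
order of vanishing of `L (E_i, s)` at `s = 1` is `r`. -/
structure Good (A B : Fin n → K) : Prop where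
  independent : Independent k A B
  tensor : ∀ (m : ℕ) (g : Fin m → Fin n), Function.Injective g → Odd m → 3 ≤ m →
    SelmerLEOne k (fun j => A (g j)) (fun j => B (g j))
  ord : ∀ i, Sm.L.OrdC k (curve (A i) (B i))

/-- The conclusions for the quadratic twists of the curves `y ^ 2 = x ^ 3 + A_i x + B_i` by `d`. -/
def GoodTwist (A B : Fin n → K) (d : K) : Prop :=
  Good k (fun i => A i * d ^ 2) (fun i => B i * d ^ 3)

variable {k} in
/-- The elliptic curve `y ^ 2 = x ^ 3 + A x + B` has good reduction at `v` (`6 ≠ 0` in `k`): some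
isomorphic curve `(u ^ 4 A, u ^ 6 B)` is integral at `v` and its discriminant is a unit at `v`. -/
def GoodReduction (v : Place k K) (A B : K) : Prop :=
  ∃ u : K, u ≠ 0 ∧ u ^ 4 * A ∈ v.ring ∧ u ^ 6 * B ∈ v.ring ∧
    v.ring.valuation (disc (u ^ 4 * A) (u ^ 6 * B)) = 1

/-- The property `P (A, B)` holds for `100` per cent of the elliptic curves
`y ^ 2 = x ^ 3 + A x + B` over `K` with the property `F (A, B)`: for every `ε > 0` there is an
`M₀`, for every `M ≥ M₀` there is an `N₀`, such that for all `N ≥ N₀` it fails for at most `ε`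
times the number of the isomorphism classes of the curves of height at most `M` and twist degree
at most `N` with the property `F`, and there are such classes. -/
def AlmostAllIn (F P : K → K → Prop) : Prop :=
  ∀ ε : ℝ, 0 < ε → ∃ M₀ : ℕ, ∀ M ≥ M₀, ∃ N₀ : ℕ, ∀ N ≥ N₀,
    0 < (Fam k K 1 M N fun a => F (a 0) (a 1)).ncard ∧
    ((Fam k K 1 M N fun a => F (a 0) (a 1) ∧ ¬ P (a 0) (a 1)).ncard : ℝ) ≤
      ε * (Fam k K 1 M N fun a => F (a 0) (a 1)).ncard

/-- For almost all `E_1` with good reduction at the places in `S`, for almost all `E_2` with good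
reduction at the places in `S` and at the bad places of `E_1`, ..., for almost all `E_n` with good
reduction at the places in `S` and at the bad places of `E_1`, ..., `E_{n-1}` the property
`P (E_1, ..., E_n)` holds; `E_i : y ^ 2 = x ^ 3 + A_i x + B_i`. -/
def Nested : (n : ℕ) → Set (Place k K) → ((Fin n → K) → (Fin n → K) → Prop) → Prop
  | 0, _, P => P Fin.elim0 Fin.elim0
  | n + 1, S, P => AlmostAllIn k (fun a b => ∀ v ∈ S, GoodReduction v a b) fun a b =>
      Nested n (S ∪ {v | ¬ GoodReduction v a b}) fun A B => P (Fin.cons a A) (Fin.cons b B)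

end

end Pool.Agent.TTA.FP
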