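import Pool.Agent.Lib.TTA.DefG
import Pool.Agent.Lib.HA.Cnt
import Pool.Agent.Lib.HA.Move

/-!
# Project TTA (MP_950c68_ag), module TwS: a positive share of the twists is even at given places

PROOF. For every `T ⊆ S` choose `f_T ∈ K`, `f_T ≠ 0`, with `ord v f_T = 1` for `v ∈ T` and
`ord v f_T = 0` for `v ∈ S - T` (`exists_ord` in `Pool/Agent/Lib/HA/Move.lean`), and let `t` be an
upper bound for the degrees of the (finitely many, `ord_finite`) places at which some `f_T` has odd
order, `t = ∑_T ∑_v deg v`. If `d` is in `TwO k O N True` and `T` is the set of the `v ∈ S` at which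
`ord v d` is odd, then `d * f_T` has even order at all `v ∈ S` and `ramO k O (d * f_T) ≤
ramO k O d + t` (compare `FixG_deg` in `HA/FixG.lean`, `ramDeg_le` in `HA/FixH.lean`), and
multiplication by the class of `f_T` is injective on `Tws K`. So the number of the classes in
`TwO k O N True` is at most `2 ^ S.card` times that in `TwO k O (N + t) (∀ v ∈ S, Even (ord v d))`.
(The classes: the union over `T ⊆ S` of the sets of those which contain a `d` with odd places `T`.)
`TwO_bounds`: at least `c * q ^ N` classes for `N ≥ N₀ (O)`, so the constant is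
`c / (2 ^ S.card * q ^ t)`. `finite_TwO`.
-/

set_option autoImplicit false

open Polynomial

namespace Pool.Agent.TTA

open Pool.Agent.BSDFF Pool.Agent.GBC Pool.Agent.GBU Pool.Agent.HA
open Pool.Agent.SmN.Fnl (Tws)

variable {k K : Type} [Field k] [Field K] [Algebra k K]
variable [Finite k] [Algebra (RatFunc k) K] [IsScalarTower k (RatFunc k) K]
  [FiniteDimensional (RatFunc k) K] [Algebra.IsSeparable (RatFunc k) K]

omit [Finite k] [Algebra (RatFunc k) K] [IsScalarTower k (RatFunc k) K]
  [FiniteDimensional (RatFunc k) K] [Algebra.IsSeparable (RatFunc k) K] in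
private theorem TwS_ram (G : Geo k K) {O : Set (Place k K)} (hO : O.Finite) {d f : K}
    (hd : d ≠ 0) (hf : f ≠ 0) :
    ramO k O (d * f) ≤ ramO k O d + ∑ v ∈ (ord_finite G hf).toFinset, v.degree := by
  classical
  set F := ((ord_finite G hd).union ((ord_finite G hf).union hO)).toFinset with hF
  have hmem : ∀ v, v ∉ F → ord v d = 0 ∧ ord v f = 0 ∧ v ∉ O := by
    intro v hv
    rw [hF, Set.Finite.mem_toFinset, Set.mem_union, Set.mem_union, not_or, not_or] at hv
    refine ⟨?_, ?_, hv.2.2⟩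
    · by_contra h
      exact hv.1 h
    · by_contra h
      exact hv.2.1 h
  have e1 : ramO k O (d * f) =
      ∑ v ∈ F, if Even (ord v (d * f)) ↔ v ∉ O then 0 else v.degree := by
    refine finsum_eq_sum_of_support_subset _ fun v hv => ?_
    by_contra hcon
    obtain ⟨h1, h2, h3⟩ := hmem v hcon
    apply hv
    dsimp only
    rw [if_pos (by rw [ord_mul v hd hf, h1, h2, add_zero]; exact ⟨fun _ => h3, fun _ => Even.zero⟩)]
  have e2 : ramO k O d = ∑ v ∈ F, if Even (ord v d) ↔ v ∉ O then 0 else v.degree := by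
    refine finsum_eq_sum_of_support_subset _ fun v hv => ?_
    by_contra hcon
    obtain ⟨h1, h2, h3⟩ := hmem v hcon
    apply hv
    dsimp only
    rw [if_pos (by rw [h1]; exact ⟨fun _ => h3, fun _ => Even.zero⟩)]
  have e3 : ∑ v ∈ F, (if ord v f ≠ 0 then v.degree else 0) ≤
      ∑ v ∈ (ord_finite G hf).toFinset, v.degree := by
    rw [← Finset.sum_filter]
    refine Finset.sum_le_sum_of_subset fun v hv => ?_
    rw [Set.Finite.mem_toFinset]
    exact (Finset.mem_filter.1 hv).2
  rw [e1, e2]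
  refine le_trans ?_ (Nat.add_le_add_left e3 _)
  rw [← Finset.sum_add_distrib]
  refine Finset.sum_le_sum fun v _ => ?_
  by_cases h1 : ord v f = 0
  · have h2 : ord v (d * f) = ord v d := by rw [ord_mul v hd hf, h1, add_zero]
    rw [h2]
    exact Nat.le_add_right _ _
  · rw [if_pos h1]
    refine le_trans ?_ (Nat.le_add_left _ _)
    split_ifs
    · exact Nat.zero_le _
    · exact le_rfl

theorem TwO_even (h2 : (2 : k) ≠ 0)
    (hk : ∀ x : K, IsIntegral k x → ∃ c : k, algebraMap k K c = x) (S : Finset (Place k K)) :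
    ∃ c : ℝ, 0 < c ∧ ∀ O : Set (Place k K), O.Finite → ∃ N₀ : ℕ, ∀ N ≥ N₀,
      c * (Nat.card k : ℝ) ^ N ≤ (TwO k O N fun d => ∀ v ∈ S, Even (ord v d)).ncard := by
  classical
  obtain ⟨G, -⟩ := exists_geo k K
  obtain ⟨c, C, hc, -, hbd⟩ := TwO_bounds (k := k) (K := K) h2 hk
  have hq : (0 : ℝ) < Nat.card k := by exact_mod_cast Nat.card_pos (α := k)
  choose f hf0 hf using fun T : Finset (Place k K) =>
    Pool.Agent.HA.exists_ord S (fun v => if v ∈ T then (1 : ℤ) else 0)
  obtain ⟨t, ht⟩ : ∃ t : ℕ, ∀ T ∈ S.powerset,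
      ∑ v ∈ (ord_finite G (hf0 T)).toFinset, v.degree ≤ t :=
    ⟨∑ T ∈ S.powerset, ∑ v ∈ (ord_finite G (hf0 T)).toFinset, v.degree, fun T hT =>
      Finset.single_le_sum (f := fun T => ∑ v ∈ (ord_finite G (hf0 T)).toFinset, v.degree)
        (fun _ _ => Nat.zero_le _) hT⟩
  refine ⟨c / (2 ^ S.card * (Nat.card k : ℝ) ^ t), by positivity, fun O hO => ?_⟩
  obtain ⟨N₁, hN₁⟩ := hbd O hO
  refine ⟨N₁ + t, fun N hN => ?_⟩
  set R : Set (Tws K) := TwO k O N fun d => ∀ v ∈ S, Even (ord v d) with hR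
  have hRfin : R.Finite := by
    refine (finite_TwO (k := k) (K := K) hO N).subset ?_
    rintro x ⟨d, hd, h1, -⟩
    exact ⟨d, hd, h1, trivial⟩
  set W : Finset (Place k K) → Set (Tws K) := fun T =>
    TwO k O (N - t) fun d => ∀ v ∈ S, (Even (ord v d) ↔ v ∉ T) with hW
  have hWle : ∀ T ∈ S.powerset, (W T).ncard ≤ R.ncard := by
    intro T hT
    have hinj : Function.Injective fun x : Tws K =>
        x * ((Units.mk0 (f T) (hf0 T) : Kˣ) : Tws K) := by
      intro a b h
      have h' : a * ((Units.mk0 (f T) (hf0 T) : Kˣ) : Tws K) =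
          b * ((Units.mk0 (f T) (hf0 T) : Kˣ) : Tws K) := h
      rw [← mul_inv_cancel_right a ((Units.mk0 (f T) (hf0 T) : Kˣ) : Tws K), h',
        mul_inv_cancel_right]
    rw [← Set.ncard_image_of_injective (W T) hinj]
    refine Set.ncard_le_ncard ?_ hRfin
    rintro _ ⟨x, ⟨d, rfl, h1, h3⟩, rfl⟩
    refine ⟨d * Units.mk0 (f T) (hf0 T), rfl, ?_, ?_⟩
    · rw [Units.val_mul, Units.val_mk0]
      have h4 := TwS_ram G hO d.ne_zero (hf0 T)
      have h5 := ht T hT
      omega
    · intro v hv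
      rw [Units.val_mul, Units.val_mk0, ord_mul v d.ne_zero (hf0 T), hf T v hv, Int.even_add]
      have h6 := h3 v hv
      by_cases h7 : v ∈ T
      · rw [if_pos h7]
        have h8 : ¬ Even (1 : ℤ) := by decide
        have h9 : ¬ Even (ord v (d : K)) := fun h => h6.1 h h7
        exact ⟨fun h => absurd h h9, fun h => absurd h h8⟩
      · rw [if_neg h7]
        exact ⟨fun _ => Even.zero, fun _ => h6.2 h7⟩
  have hcov : (TwO k O (N - t) fun _ => True) ⊆ ⋃ T ∈ S.powerset, W T := by
    rintro x ⟨d, hd, h1, -⟩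
    rw [Set.mem_iUnion₂]
    refine ⟨S.filter fun v => ¬ Even (ord v (d : K)),
      Finset.mem_powerset.2 (Finset.filter_subset _ _), d, hd, h1, fun v hv => ?_⟩
    rw [Finset.mem_filter, not_and, not_not]
    exact ⟨fun h _ => h, fun h => h hv⟩
  have hWfin : ∀ T, (W T).Finite := fun T => by
    refine (finite_TwO (k := k) (K := K) hO (N - t)).subset ?_
    rintro x ⟨d, hd, h1, -⟩
    exact ⟨d, hd, h1, trivial⟩
  have hcard : (TwO k O (N - t) fun _ : K => True).ncard ≤ 2 ^ S.card * R.ncard := by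
    refine (Set.ncard_le_ncard hcov (S.powerset.finite_toSet.biUnion fun T _ => hWfin T)).trans ?_
    refine (Finset.set_ncard_biUnion_le S.powerset W).trans ?_
    refine (Finset.sum_le_sum hWle).trans ?_
    rw [Finset.sum_const, Finset.card_powerset, smul_eq_mul]
  have h1 := (hN₁ (N - t) (by omega)).1
  have h3 : ((TwO k O (N - t) fun _ : K => True).ncard : ℝ) ≤ 2 ^ S.card * (R.ncard : ℝ) := by
    exact_mod_cast hcard
  have h4 : (Nat.card k : ℝ) ^ N = (Nat.card k : ℝ) ^ (N - t) * (Nat.card k : ℝ) ^ t := by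
    rw [← pow_add, Nat.sub_add_cancel (by omega)]
  have h5 : c / (2 ^ S.card * (Nat.card k : ℝ) ^ t) * (Nat.card k : ℝ) ^ N =
      c * (Nat.card k : ℝ) ^ (N - t) / 2 ^ S.card := by
    rw [h4]
    field_simp
  rw [h5, div_le_iff₀ (by positivity)]
  linarith

end Pool.Agent.TTA
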