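import Pool.Agent.Lib.TTA.LowS
import Pool.Agent.Lib.TTA.TwS
import Pool.Agent.Lib.HA.Main

/-!
# Project TTA (MP_950c68_ag), module Share: a positive share of the elliptic curves has good
# reduction at the places of a finite set

PROOF of `share_cst` (`g = 1`). (1) `le_shapesS` for `Z v = {y | (pol 1 y).Separable}` (it contains
`y = (1, 0)`: `X ^ 3 + X`, `2 ≠ 0`) and a place `v₀ ∉ S` of large degree (`sum_places`, `dens_A`,
see `GenM_low` in `HA/GenM.lean`): at least `c₁ q ^ (wt 1 * M)` shapes contain an `a` with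
`IntV v a` and `pol 1 (redV v a)` separable for all `v ∈ S`. (2) `shapes_le` and `card_Box_le`: there
are at most `C₁ q ^ (wt 1 * M)` shapes (as at the end of `most_gen`), and by `most_gen` at most
`c₁ / 2 * q ^ (wt 1 * M)` of them are not generic; so at least `c₁ / 2 * q ^ (wt 1 * M)` shapes
contain an `a` as in (1) with `a j ≠ 0` (`GenS.ne`, stable under scaling). Choose these `a` as the
representatives `r z` of these shapes (any representatives for the others). (3) For such a shape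
and `d` with even order at all `v ∈ S`, the curve of `sc d (r z)` has good reduction at `v`: take
`u` with `2 ord v u = - ord v d` (`exists_uniformizer` or `exists_ord`), then
`u ^ 4 * (d ^ 2 * a 0) = (u ^ 2 * d) ^ 2 * a 0` and `u ^ 6 * (d ^ 3 * a 1)` are in the ring of `v`,
and the discriminant is `(u ^ 2 * d) ^ 6 * disc a`, a unit. (4) `le_fam` with `P a = ∀ v ∈ S,
GoodRed v (a 0) (a 1)` and `TwO_even`: for `N ≥ N₀ (M)` at least `c₁ / 2 * q ^ (wt 1 * M) *
c₂ q ^ N` curves in the family have `P`. (5) `fam_le` and `TwO_bounds`: the family has at most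
`C₁ q ^ (wt 1 * M) * C₂ q ^ N` curves.

`share`: the case of the field of constants, as `fam_mainG` in `HA/Main.lean` (`fam_const`, `cst`,
`plE`; `GoodRed v` depends only on `v.ring`). `bad_finite`: take `u = 1`; `ord_finite` for `a`, `b`
(if they are not zero) and for the discriminant.
-/

set_option autoImplicit false

open Polynomial

namespace Pool.Agent.TTA

open Pool.Agent.BSDFF Pool.Agent.GBC Pool.Agent.GBU Pool.Agent.HA
open IsLocalRing (ResidueField residue)

section aux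

private theorem Share_pol {R : Type*} [CommRing R] (a : Fin (2 * 1) → R) :
    pol 1 a = X ^ 3 + C (a 0) * X + C (a 1) := by
  unfold pol
  have h : (∑ j : Fin (2 * 1), C (a j) * X ^ (2 * 1 - 1 - (j : ℕ)) : R[X]) =
      C (a 0) * X + C (a 1) := by
    change (∑ j : Fin 2, C (a j) * X ^ (2 * 1 - 1 - (j : ℕ)) : R[X]) = _
    rw [Fin.sum_univ_two]
    simp
  rw [h, ← add_assoc]

private theorem Share_two {F : Type} [Field F] (h6 : (6 : F) ≠ 0) : (2 : F) ≠ 0 := by
  intro h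
  apply h6
  have h1 : (6 : F) = 2 * 3 := by norm_num
  rw [h1, h, zero_mul]

/-- The discriminant of a separable cubic. -/
private theorem Share_disc {F : Type} [Field F] (h6 : (6 : F) ≠ 0) {a : Fin (2 * 1) → F}
    (h : (pol 1 a).Separable) : -4 * a 0 ^ 3 - 27 * a 1 ^ 2 ≠ 0 := by
  intro h0
  have h2 := Share_two h6
  have h3 : (3 : F) ≠ 0 := by
    intro h
    apply h6
    have h1 : (6 : F) = 2 * 3 := by norm_num
    rw [h1, h, mul_zero]
  obtain ⟨u, w, huw⟩ := h
  have key : ∀ r : F, r ^ 3 + a 0 * r + a 1 = 0 → 3 * r ^ 2 + a 0 = 0 → False := by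
    intro r h4 h5
    have h7 := congrArg (eval r) huw
    rw [Share_pol] at h7
    simp only [derivative_add, derivative_mul, derivative_X, derivative_C, eval_add,
      eval_mul, eval_pow, eval_X, eval_C, derivative_pow, eval_zero, eval_one] at h7
    have h8 : (eval r u) * (r ^ 3 + a 0 * r + a 1) + (eval r w) * (3 * r ^ 2 + a 0) = 1 := by
      rw [← h7]
      push_cast
      norm_num
    rw [h4, h5, mul_zero, mul_zero, add_zero] at h8
    exact zero_ne_one h8
  by_cases hA : a 0 = 0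
  · have hB : a 1 = 0 := by
      rw [hA] at h0
      have h27 : (27 : F) ≠ 0 := by
        have : (27 : F) = 3 ^ 3 := by norm_num
        rw [this]
        exact pow_ne_zero _ h3
      have h4 : 27 * a 1 ^ 2 = 0 := by linear_combination -h0
      exact pow_eq_zero_iff two_ne_zero |>.1 ((mul_eq_zero.1 h4).resolve_left h27)
    exact key 0 (by rw [hA, hB]; ring) (by rw [hA]; ring)
  · refine key (-3 * a 1 / (2 * a 0)) ?_ ?_
    · field_simp
      linear_combination (a 1) * h0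
    · field_simp
      linear_combination -h0

variable {k K : Type} [Field k] [Field K] [Algebra k K]

private theorem Share_six (h6 : (6 : k) ≠ 0) (v : Place k K) :
    (6 : ResidueField v.ring) ≠ 0 := by
  have h1 : ((6 : ℕ) : ResidueField v.ring) ≠ 0 := by
    rw [← map_natCast v.constMap]
    exact fun h => h6 (by exact_mod_cast (map_eq_zero _).1 h)
  exact_mod_cast h1

/-- The discriminant is a unit. -/
private theorem Share_val (h6 : (6 : k) ≠ 0) {v : Place k K} {a : Fin (2 * 1) → K}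
    (hi : IntV v a) (hs : (pol 1 (redV v a)).Separable) :
    v.ring.valuation (-4 * a 0 ^ 3 - 27 * a 1 ^ 2) = 1 := by
  have h1 := Share_disc (Share_six h6 v) hs
  have e0 : redV v a 0 = residue v.ring ⟨a 0, hi 0⟩ := dif_pos (hi 0)
  have e1 : redV v a 1 = residue v.ring ⟨a 1, hi 1⟩ := dif_pos (hi 1)
  set D : v.ring := -4 * ⟨a 0, hi 0⟩ ^ 3 - 27 * ⟨a 1, hi 1⟩ ^ 2 with hD
  have h2 : residue v.ring D ≠ 0 := by
    rw [hD, map_sub, map_mul, map_mul, map_pow, map_pow, ← e0, ← e1, map_neg, map_ofNat,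
      map_ofNat]
    exact h1
  have h3 : IsUnit D := (IsLocalRing.residue_ne_zero_iff_isUnit D).1 h2
  exact (v.ring.valuation_eq_one_iff D).1 h3

/-- Good reduction of the twists which are even at `v`. -/
private theorem Share_good (h6 : (6 : k) ≠ 0) {v : Place k K} {a : Fin (2 * 1) → K}
    (hi : IntV v a) (hs : (pol 1 (redV v a)).Separable) {d : K} (hd : d ≠ 0)
    (he : Even (ord v d)) : GoodRed v (sc d a 0) (sc d a 1) := by
  obtain ⟨e, he⟩ := he
  obtain ⟨u, hu, hue⟩ := Pool.Agent.GBC.exists_ord v (-e)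
  have hw0 : u ^ 2 * d ≠ 0 := mul_ne_zero (pow_ne_zero _ hu) hd
  have hw : ord v (u ^ 2 * d) = 0 := by
    rw [ord_mul v (pow_ne_zero _ hu) hd, ord_pow v hu, hue, he]
    push_cast
    ring
  have hwr : u ^ 2 * d ∈ v.ring := (mem_ring_iff v hw0).2 hw.ge
  have hwv : v.ring.valuation (u ^ 2 * d) = 1 := (val_eq_one_iff v hw0).2 hw
  have e0 : sc d a 0 = d ^ 2 * a 0 := rfl
  have e1 : sc d a 1 = d ^ 3 * a 1 := rfl
  refine ⟨u, hu, ?_, ?_, ?_⟩
  · have : u ^ 4 * sc d a 0 = (u ^ 2 * d) ^ 2 * a 0 := by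
      rw [e0]
      ring
    rw [this]
    exact mul_mem (pow_mem hwr 2) (hi 0)
  · have : u ^ 6 * sc d a 1 = (u ^ 2 * d) ^ 3 * a 1 := by
      rw [e1]
      ring
    rw [this]
    exact mul_mem (pow_mem hwr 3) (hi 1)
  · have : -4 * (u ^ 4 * sc d a 0) ^ 3 - 27 * (u ^ 6 * sc d a 1) ^ 2 =
        (u ^ 2 * d) ^ 6 * (-4 * a 0 ^ 3 - 27 * a 1 ^ 2) := by
      rw [e0, e1]
      ring
    rw [this, map_mul, map_pow, hwv, one_pow, one_mul]
    exact Share_val h6 hi hs

/-- A separable cubic. -/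
private theorem Share_nonempty (h6 : (6 : k) ≠ 0) (v : Place k K) :
    {y : Fin (2 * 1) → ResidueField v.ring | (pol 1 y).Separable}.Nonempty := by
  have h2 := Share_two (Share_six h6 v)
  refine ⟨![1, 0], ?_⟩
  change (pol 1 (![1, 0] : Fin (2 * 1) → ResidueField v.ring)).Separable
  rw [Share_pol]
  change (X ^ 3 + C (1 : ResidueField v.ring) * X + C (0 : ResidueField v.ring)).Separable
  refine ⟨C (-(9 : ResidueField v.ring) / 2) * X, C (3 / 2 : ResidueField v.ring) * X ^ 2 + 1, ?_⟩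
  have h3 : (C (-(9 : ResidueField v.ring) / 2)) = -(3 * C (3 / 2 : ResidueField v.ring)) := by
    rw [show (3 : (ResidueField v.ring)[X]) = C 3 from rfl, ← C_mul, ← C_neg]
    congr 1
    ring
  have h4 : (2 : (ResidueField v.ring)[X]) * C (3 / 2 : ResidueField v.ring) = 3 := by
    rw [show (2 : (ResidueField v.ring)[X]) = C 2 from rfl,
      show (3 : (ResidueField v.ring)[X]) = C 3 from rfl, ← C_mul]
    congr 1
    field_simp
  rw [h3]
  simp only [derivative_add, derivative_mul, derivative_X, derivative_pow, C_1, C_0,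
    derivative_one, derivative_zero]
  push_cast
  norm_num
  rw [show (C (3 : ResidueField v.ring)) = (3 : (ResidueField v.ring)[X]) from rfl]
  linear_combination (-X ^ 2) * h4

end aux

section

variable {k K : Type} [Field k] [Field K] [Algebra k K]
variable [Finite k] [Algebra (RatFunc k) K] [IsScalarTower k (RatFunc k) K]
  [FiniteDimensional (RatFunc k) K] [Algebra.IsSeparable (RatFunc k) K]

/-- Many shapes with good reduction. -/
private theorem Share_low (hk : ∀ x : K, IsIntegral k x → ∃ c : k, algebraMap k K c = x)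
    (h6 : (6 : k) ≠ 0) (hp : ((2 * 1 + 1).factorial : k) ≠ 0) (S : Finset (Place k K)) :
    ∃ c : ℝ, 0 < c ∧ ∃ M₀ : ℕ, ∀ M ≥ M₀, c * (Nat.card k : ℝ) ^ (wt 1 * M) ≤
      (Shapes k K 1 M fun a => ∀ v ∈ S, IntV v a ∧
        redV v a ∈ {y : Fin (2 * 1) → ResidueField v.ring | (pol 1 y).Separable}).ncard := by
  obtain ⟨G, -⟩ := exists_geo k K
  obtain ⟨cA, hcA, QA, hA⟩ := dens_A (g := 1) le_rfl
  obtain ⟨V, hV, hV1⟩ := sum_places (k := k) (K := K) hk
    (QA + S.sup (fun v => v.degree) + 1) 1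
  have hne : V.Nonempty := by
    rw [Finset.nonempty_iff_ne_empty]
    rintro rfl
    rw [Finset.sum_empty] at hV1
    linarith
  obtain ⟨v₀, hv₀⟩ := hne
  have hdeg := (hV v₀ hv₀).1
  have hv₀S : v₀ ∉ S := fun h => by
    have := Finset.le_sup (f := fun v : Place k K => v.degree) h
    omega
  have hfin : Finite (ResidueField v₀.ring) := finite_res G v₀
  have hk2 : 1 < Nat.card k := Finite.one_lt_card
  have hQ : QA ≤ Nat.card (ResidueField v₀.ring) := by
    rw [card_residue v₀]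
    exact ((by omega : QA ≤ v₀.degree)).trans (Nat.lt_pow_self hk2).le
  refine le_shapesS G le_rfl hp S
    (fun v => {y : Fin (2 * 1) → ResidueField v.ring | (pol 1 y).Separable})
    (fun v _ => Share_nonempty h6 v) hv₀S hcA ?_
  have hcard : (Nat.card (Fin (2 * 1) → ResidueField v₀.ring) : ℝ) =
      (Nat.card (ResidueField v₀.ring) : ℝ) ^ (2 * 1) := by
    rw [Nat.card_fun, Nat.card_fin]
    push_cast
    rfl
  rw [hcard]
  refine hA _ hQ ?_
  intro h
  have h3 : (3 : ResidueField v₀.ring) = 0 := by exact_mod_cast h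
  apply Share_six h6 v₀
  have h1 : (6 : ResidueField v₀.ring) = 2 * 3 := by norm_num
  rw [h1, h3, mul_zero]

/-- Upper bound for the number of shapes. -/
private theorem Share_upp : ∃ C : ℝ, 0 < C ∧ ∀ M : ℕ,
    ((Shapes k K 1 M fun _ => True).ncard : ℝ) ≤ C * (Nat.card k : ℝ) ^ (wt 1 * M) := by
  obtain ⟨G, -⟩ := exists_geo k K
  obtain ⟨h, d₀, hU⟩ := shapes_le G (g := 1) le_rfl
  obtain ⟨Bb, hBb⟩ := card_Box_le G 1
  have hk2 : 1 < Nat.card k := Finite.one_lt_card
  have hq : (1 : ℝ) < Nat.card k := by exact_mod_cast hk2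
  have hq0 : (0 : ℝ) < Nat.card k := by linarith
  refine ⟨(h + 1) * ((Bb + 1) * (Nat.card k : ℝ) ^ (wt 1 * d₀)), by positivity, fun M => ?_⟩
  obtain ⟨R, hRc, hRD, hR⟩ := hU ∅ M
  obtain ⟨-, hR2⟩ := hR (fun _ => True) fun _ _ _ _ => trivial
  have hbox : ∀ D ∈ R,
      ({a : Fin (2 * 1) → K | a ∈ Box 1 D ∧ (pol 1 a).Separable ∧ True}.ncard : ℝ) ≤
        (Bb + 1) * (Nat.card k : ℝ) ^ (wt 1 * (M + d₀)) := by
    intro D hD
    obtain ⟨-, hD1, hD2⟩ := hRD D hD
    have hfB : (Box 1 D : Set (Fin (2 * 1) → K)).Finite := by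
      have := finite_Box G 1 D
      exact Set.toFinite _
    have h0 : {a : Fin (2 * 1) → K | a ∈ Box 1 D ∧ (pol 1 a).Separable ∧ True}.ncard ≤
        Nat.card (Box 1 D) := by
      rw [← SetLike.coe_sort_coe, Nat.card_coe_set_eq]
      exact Set.ncard_le_ncard (fun a ha => ha.1) hfB
    have h1 := hBb D (le_trans (by positivity) hD1)
    have h2 : (Nat.card (Box 1 D) : ℝ) ≤ Bb * (Nat.card k : ℝ) ^ (wt 1 * (degD D).toNat) := by
      exact_mod_cast h1
    have h3 : ({a : Fin (2 * 1) → K | a ∈ Box 1 D ∧ (pol 1 a).Separable ∧ True}.ncard : ℝ) ≤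
        Nat.card (Box 1 D) := by exact_mod_cast h0
    refine (h3.trans h2).trans ?_
    refine mul_le_mul (by linarith) ?_ (by positivity) (by positivity)
    refine pow_le_pow_right₀ hq.le (Nat.mul_le_mul_left _ ?_)
    omega
  calc ((Shapes k K 1 M fun _ => True).ncard : ℝ)
      ≤ ((∑ D ∈ R, {a : Fin (2 * 1) → K | a ∈ Box 1 D ∧ (pol 1 a).Separable ∧
          True}.ncard : ℕ) : ℝ) := by exact_mod_cast hR2
    _ = ∑ D ∈ R, ({a : Fin (2 * 1) → K | a ∈ Box 1 D ∧ (pol 1 a).Separable ∧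
          True}.ncard : ℝ) := by push_cast; rfl
    _ ≤ ∑ _D ∈ R, (Bb + 1) * (Nat.card k : ℝ) ^ (wt 1 * (M + d₀)) := Finset.sum_le_sum hbox
    _ = R.card * ((Bb + 1) * (Nat.card k : ℝ) ^ (wt 1 * (M + d₀))) := by
        rw [Finset.sum_const, nsmul_eq_mul]
    _ ≤ (h + 1) * ((Bb + 1) * (Nat.card k : ℝ) ^ (wt 1 * (M + d₀))) := by
        refine mul_le_mul_of_nonneg_right ?_ (by positivity)
        have : (R.card : ℝ) ≤ h := by exact_mod_cast hRc
        linarith
    _ = _ := by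
        rw [Nat.mul_add, pow_add]
        ring

theorem share_cst (hk : ∀ x : K, IsIntegral k x → ∃ c : k, algebraMap k K c = x)
    (h6 : (6 : k) ≠ 0) (S : Finset (Place k K)) :
    ∃ c : ℝ, 0 < c ∧ ∃ M₀ : ℕ, ∀ M ≥ M₀, ∃ N₀ : ℕ, ∀ N ≥ N₀,
      c * (Fam k K 1 M N fun _ => True).ncard ≤
        (Fam k K 1 M N fun a => ∀ v ∈ S, GoodRed v (a 0) (a 1)).ncard := by
  classical
  obtain ⟨G, -⟩ := exists_geo k K
  have hp : ((2 * 1 + 1).factorial : k) ≠ 0 := by
    have : ((2 * 1 + 1).factorial : k) = 6 := by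
      have : (2 * 1 + 1).factorial = 6 := by decide
      rw [this]
      norm_num
    rwa [this]
  have h2 : (2 : k) ≠ 0 := Share_two h6
  obtain ⟨c₁, hc₁, M₁, hL⟩ := Share_low hk h6 hp S
  obtain ⟨C₁, hC₁, hU⟩ := Share_upp (k := k) (K := K)
  obtain ⟨M₂, hM₂⟩ := most_gen (K := K) hk (g := 1) le_rfl hp 0 (c₁ / (2 * C₁)) (by positivity)
  obtain ⟨c₂, C₂, hc₂, hC₂, hb⟩ := TwO_bounds (k := k) (K := K) h2 hk
  obtain ⟨c₃, hc₃, he⟩ := TwO_even h2 hk S
  refine ⟨c₁ / 2 * c₃ / (C₁ * C₂), by positivity, max M₁ M₂, fun M hM => ?_⟩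
  have hL' := hL M ((le_max_left _ _).trans hM)
  have hM₂' := hM₂ M ((le_max_right _ _).trans hM)
  have hU' := hU M
  set q : ℝ := (Nat.card k : ℝ) with hq
  have hq0 : 0 < q := by
    have : 0 < Nat.card k := Nat.card_pos
    rw [hq]
    exact_mod_cast this
  set P1 : (Fin (2 * 1) → K) → Prop := fun a => ∀ v ∈ S, IntV v a ∧
    redV v a ∈ {y : Fin (2 * 1) → ResidueField v.ring | (pol 1 y).Separable} with hP1
  have hZf : (Shapes k K 1 M fun _ => True).Finite := finite_shapes le_rfl M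
  have hmono : ∀ P : (Fin (2 * 1) → K) → Prop, (Shapes k K 1 M P) ⊆
      (Shapes k K 1 M fun _ => True) := by
    rintro P z ⟨a, ha, hs, hh, -⟩
    exact ⟨a, ha, hs, hh, trivial⟩
  set Z : Finset (Shp K 1) := hZf.toFinset with hZ
  have hmZ : ∀ z, z ∈ Z ↔ z ∈ Shapes k K 1 M fun _ => True := fun z =>
    Set.Finite.mem_toFinset _
  set Z1 := Z.filter fun z => z ∈ Shapes k K 1 M P1 ∧
    z ∉ Shapes k K 1 M fun a => ¬ GenS k 0 a with hZ1
  -- the representatives
  have hrep : ∀ z : Shp K 1, ∃ b : Fin (2 * 1) → K, Quotient.mk (scRel K 1) b = z ∧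
      (z ∈ Z1 → (∀ j : Fin (2 * 1), (j : ℕ) ≤ 1 → b j ≠ 0) ∧ P1 b) := by
    intro z
    by_cases hz : z ∈ Z1
    · obtain ⟨-, ⟨a, ha, hs, hh, hPa⟩, h4⟩ := Finset.mem_filter.1 hz
      refine ⟨a, ha, fun _ => ⟨?_, hPa⟩⟩
      have h5 : GenS k 0 a := by
        by_contra h5
        exact h4 ⟨a, ha, hs, hh, h5⟩
      exact h5.ne
    · obtain ⟨b, hb⟩ := Quotient.exists_rep z
      exact ⟨b, hb, fun h => absurd h hz⟩
  choose r hr hr' using hrep
  have hsep : ∀ z ∈ Z, (pol 1 (r z)).Separable := by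
    intro z hz
    obtain ⟨a, ha, hs, -, -⟩ := (hmZ z).1 hz
    obtain ⟨u, hu, h2⟩ := Quotient.exact (ha.trans (hr z).symm)
    rw [h2]
    exact sep_sc hs hu
  have hOf : ∀ z ∈ Z, (Od k (r z)).Finite := fun z hz =>
    Od_finite G (ne_zero_of_sep le_rfl (hsep z hz))
  have hT : ∀ (N : ℕ) (O : Set (Place k K)), O.Finite → (TwO k O N fun _ => True).Finite :=
    fun N O hO => finite_TwO hO N
  have hbz : ∀ z : Shp K 1, ∃ N₀ : ℕ, z ∈ Z → ∀ N ≥ N₀,
      ((TwO k (Od k (r z)) N fun _ => True).ncard : ℝ) ≤ C₂ * q ^ N ∧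
      c₃ * q ^ N ≤ (TwO k (Od k (r z)) N fun d => ∀ v ∈ S, Even (ord v d)).ncard := by
    intro z
    by_cases hz : z ∈ Z
    · obtain ⟨N₁, h8⟩ := hb _ (hOf z hz)
      obtain ⟨N₂, h9⟩ := he _ (hOf z hz)
      exact ⟨max N₁ N₂, fun _ N hN => ⟨(h8 N ((le_max_left _ _).trans hN)).2.1,
        h9 N ((le_max_right _ _).trans hN)⟩⟩
    · exact ⟨0, fun h => absurd h hz⟩
  choose N₂ hN₂ using hbz
  refine ⟨Z.sup N₂, fun N hN => ?_⟩
  have hNz : ∀ z ∈ Z, N ≥ N₂ z := fun z hz => (Finset.le_sup (f := N₂) hz).trans hN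
  -- upper bound for the family
  have hup : ((Fam k K 1 M N fun _ => True).ncard : ℝ) ≤ Z.card * (C₂ * q ^ N) := by
    have h3 := (fam_le G le_rfl M N (fun _ => True) (hT N) r hr hmZ).2
    have h4 : ((Fam k K 1 M N fun _ => True).ncard : ℝ) ≤
        ((∑ z ∈ Z, (TwO k (Od k (r z)) N fun _ => True).ncard : ℕ) : ℝ) := by
      exact_mod_cast h3
    refine h4.trans ?_
    rw [Nat.cast_sum, ← nsmul_eq_mul]
    exact Finset.sum_le_card_nsmul _ _ _ fun z hz => (hN₂ z hz N (hNz z hz)).1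
  -- lower bound for the family
  have hlow : (Z1.card : ℝ) * (c₃ * q ^ N) ≤
      (Fam k K 1 M N fun a => ∀ v ∈ S, GoodRed v (a 0) (a 1)).ncard := by
    have hfam : (Fam k K 1 M N fun a => ∀ v ∈ S, GoodRed v (a 0) (a 1)).Finite :=
      (fam_le G le_rfl M N _ (hT N) r hr hmZ).1
    have h3 := le_fam G le_rfl M N (fun a => ∀ v ∈ S, GoodRed v (a 0) (a 1)) (hT N) hfam r hr
      (Z := Z1) fun z hz => ⟨(hmZ z).1 (Finset.mem_filter.1 hz).1, (hr' z hz).1⟩
    have h4 : ((∑ z ∈ Z1, (TwO k (Od k (r z)) N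
        fun d => ∀ v ∈ S, GoodRed v (sc d (r z) 0) (sc d (r z) 1)).ncard : ℕ) : ℝ) ≤
        (Fam k K 1 M N fun a => ∀ v ∈ S, GoodRed v (a 0) (a 1)).ncard := by
      exact_mod_cast h3
    refine le_trans ?_ h4
    rw [Nat.cast_sum, ← nsmul_eq_mul]
    refine Finset.card_nsmul_le_sum _ _ _ fun z hz => ?_
    have hzZ := (Finset.mem_filter.1 hz).1
    refine (hN₂ z hzZ N (hNz z hzZ)).2.trans ?_
    refine Nat.cast_le.2 (Set.ncard_le_ncard (TwO_mono_unit fun d hd v hv => ?_)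
      ((finite_TwO (hOf z hzZ) N).subset (TwO_mono fun _ _ => trivial)))
    have h5 := (hr' z hz).2 v hv
    exact Share_good h6 h5.1 h5.2 d.ne_zero (hd v hv)
  -- the number of the shapes
  have hZ1c : c₁ / 2 * q ^ (wt 1 * M) ≤ Z1.card := by
    have h3 : Shapes k K 1 M P1 ⊆ (Z1 : Set (Shp K 1)) ∪
        Shapes k K 1 M fun a => ¬ GenS k 0 a := by
      intro z hz
      by_cases h4 : z ∈ Shapes k K 1 M fun a => ¬ GenS k 0 a
      · exact Or.inr h4
      · exact Or.inl (Finset.mem_coe.2 (Finset.mem_filter.2 ⟨(hmZ z).2 (hmono _ hz), hz, h4⟩))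
    have h4 := (Set.ncard_le_ncard h3 ((Finset.finite_toSet Z1).union
      (hZf.subset (hmono _)))).trans (Set.ncard_union_le _ _)
    rw [Set.ncard_coe_finset] at h4
    have h5 : ((Shapes k K 1 M P1).ncard : ℝ) ≤ Z1.card +
        (Shapes k K 1 M fun a => ¬ GenS k 0 a).ncard := by exact_mod_cast h4
    have h6' : ((Shapes k K 1 M fun a => ¬ GenS k 0 a).ncard : ℝ) ≤
        c₁ / 2 * q ^ (wt 1 * M) := by
      refine hM₂'.trans ?_
      calc c₁ / (2 * C₁) * ((Shapes k K 1 M fun _ => True).ncard : ℝ)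
          ≤ c₁ / (2 * C₁) * (C₁ * q ^ (wt 1 * M)) :=
            mul_le_mul_of_nonneg_left hU' (by positivity)
        _ = c₁ / 2 * q ^ (wt 1 * M) := by
            field_simp
    linarith
  have hZc : (Z.card : ℝ) ≤ C₁ * q ^ (wt 1 * M) := by
    have h3 : (Shapes k K 1 M fun _ => True).ncard = Z.card := Set.ncard_eq_toFinset_card _ hZf
    rw [h3] at hU'
    exact hU'
  calc c₁ / 2 * c₃ / (C₁ * C₂) * ((Fam k K 1 M N fun _ => True).ncard : ℝ)
      ≤ c₁ / 2 * c₃ / (C₁ * C₂) * (C₁ * q ^ (wt 1 * M) * (C₂ * q ^ N)) :=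
        mul_le_mul_of_nonneg_left (hup.trans (mul_le_mul_of_nonneg_right hZc (by positivity)))
          (by positivity)
    _ = c₁ / 2 * q ^ (wt 1 * M) * (c₃ * q ^ N) := by
        field_simp
    _ ≤ Z1.card * (c₃ * q ^ N) := mul_le_mul_of_nonneg_right hZ1c (by positivity)
    _ ≤ _ := hlow

end

section

variable (k K : Type) [Field k] [Finite k] [Field K] [Algebra k K] [Algebra.EssFiniteType k K]

theorem share (hK : Algebra.trdeg k K = 1) (h6 : (6 : k) ≠ 0) {S : Set (Place k K)}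
    (hS : S.Finite) : ∃ c : ℝ, 0 < c ∧ ∃ M₀ : ℕ, ∀ M ≥ M₀, ∃ N₀ : ℕ, ∀ N ≥ N₀,
      c * (Fam k K 1 M N fun _ => True).ncard ≤
        (Fam k K 1 M N fun a => ∀ v ∈ S, GoodRed v (a 0) (a 1)).ncard := by
  classical
  have := Pool.Agent.SmN.Fnl.finite_cst k K hK
  have := Pool.Agent.SmN.Fnl.essFinite_cst k K
  have h1 := Pool.Agent.SmN.Fnl.trdeg_cst k K hK
  have : PerfectField (Pool.Agent.SmN.Fnl.cst k K) := inferInstance
  obtain ⟨alg, h2, h3, h4⟩ := exists_ratFunc (Pool.Agent.SmN.Fnl.cst k K) K h1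
  have h6' : (6 : Pool.Agent.SmN.Fnl.cst k K) ≠ 0 := by
    intro h
    apply h6
    apply (algebraMap k (Pool.Agent.SmN.Fnl.cst k K)).injective
    rw [map_ofNat, map_zero]
    exact h
  have hk : ∀ x : K, IsIntegral (Pool.Agent.SmN.Fnl.cst k K) x →
      ∃ c : Pool.Agent.SmN.Fnl.cst k K, algebraMap (Pool.Agent.SmN.Fnl.cst k K) K c = x :=
    fun x hx => Pool.Agent.SmN.Fnl.const_cst k K x (SmBU.isIntegral_iff_isC.1 hx)
  have hn := Pool.Agent.SmN.Fnl.finrank_pos k (Pool.Agent.SmN.Fnl.cst k K)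
  obtain ⟨c, hc, M₀, h7⟩ := share_cst hk h6'
    (hS.toFinset.image (Pool.Agent.SmN.Fnl.plE k (Pool.Agent.SmN.Fnl.cst k K) :
      Place k K ≃ Place (Pool.Agent.SmN.Fnl.cst k K) K))
  have hP : (fun a : Fin (2 * 1) → K => ∀ v ∈ S, GoodRed v (a 0) (a 1)) =
      fun a => ∀ v ∈ hS.toFinset.image (Pool.Agent.SmN.Fnl.plE k (Pool.Agent.SmN.Fnl.cst k K) :
        Place k K ≃ Place (Pool.Agent.SmN.Fnl.cst k K) K), GoodRed v (a 0) (a 1) := by
    funext a
    rw [Finset.forall_mem_image]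
    simp only [Set.Finite.mem_toFinset]
    rfl
  refine ⟨c, hc, M₀ * Module.finrank k (Pool.Agent.SmN.Fnl.cst k K), fun M hM => ?_⟩
  obtain ⟨N₀, h8⟩ := h7 (M / Module.finrank k (Pool.Agent.SmN.Fnl.cst k K))
    ((Nat.le_div_iff_mul_le hn).2 hM)
  refine ⟨N₀ * Module.finrank k (Pool.Agent.SmN.Fnl.cst k K), fun N hN => ?_⟩
  have h9 := h8 (N / Module.finrank k (Pool.Agent.SmN.Fnl.cst k K))
    ((Nat.le_div_iff_mul_le hn).2 hN)
  rw [hP, fam_const k (Pool.Agent.SmN.Fnl.cst k K), fam_const k (Pool.Agent.SmN.Fnl.cst k K)]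
  exact h9

theorem bad_finite (hK : Algebra.trdeg k K = 1) {a b : K}
    (h : -4 * a ^ 3 - 27 * b ^ 2 ≠ 0) : {v : Place k K | ¬ GoodRed v a b}.Finite := by
  have : PerfectField k := inferInstance
  obtain ⟨alg, h2, h3, h4⟩ := exists_ratFunc k K hK
  obtain ⟨G, -⟩ := exists_geo k K
  have hfin : ∀ x : K, {v : Place k K | ord v x ≠ 0}.Finite := by
    intro x
    by_cases hx : x = 0
    · rw [hx]
      have : {v : Place k K | ord v (0 : K) ≠ 0} = ∅ := by
        ext v
        simp [ord_zero]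
      rw [this]
      exact Set.finite_empty
    · exact ord_finite G hx
  refine (((hfin a).union (hfin b)).union (hfin (-4 * a ^ 3 - 27 * b ^ 2))).subset ?_
  intro v hv
  by_contra hcon
  simp only [Set.mem_union, Set.mem_ofPred_eq, not_or, not_not] at hcon
  obtain ⟨⟨ha, hb⟩, hd⟩ := hcon
  have hmem : ∀ x : K, ord v x = 0 → x ∈ v.ring := by
    intro x hx
    by_cases hx0 : x = 0
    · rw [hx0]
      exact zero_mem _
    · exact (mem_ring_iff v hx0).2 hx.ge
  refine hv ⟨1, one_ne_zero, ?_, ?_, ?_⟩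
  · rw [one_pow, one_mul]
    exact hmem a ha
  · rw [one_pow, one_mul]
    exact hmem b hb
  · rw [one_pow, one_mul, one_pow, one_mul]
    exact (val_eq_one_iff v h).2 hd

end

end Pool.Agent.TTA
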