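import Pool.Agent.Lib.TTA.Nest
import Pool.Agent.Lib.TTA.Share

/-!
# Project TTA (MP_950c68_ag), module NestG: all `n`-tuples of elliptic curves with disjoint sets
# of bad places
-/

set_option autoImplicit false

open Polynomial

namespace Pool.Agent.TTA

open Pool.Agent.BSDFF (Place)
open Pool.Agent.HA Pool.Agent.TTN

section mono

variable {k K : Type} [Field k] [Field K] [Algebra k K]

private theorem NestG_mono1 (hfin : ∀ M N, (Fam k K 1 M N fun _ => True).Finite)
    {F P Q : K → K → Prop} (h : ∀ a b, P a b → Q a b) (hP : AlmostAllIn k F P) :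
    AlmostAllIn k F Q := by
  intro ε hε
  obtain ⟨M₀, h1⟩ := hP ε hε
  refine ⟨M₀, fun M hM => ?_⟩
  obtain ⟨N₀, h2⟩ := h1 M hM
  refine ⟨N₀, fun N hN => ⟨(h2 N hN).1, le_trans (Nat.cast_le.2 (Set.ncard_le_ncard ?_ ?_))
    (h2 N hN).2⟩⟩
  · rintro C ⟨a, h3, h4, h5, h6, h7, h8⟩
    exact ⟨a, h3, h4, h5, h6, h7, fun h9 => h8 (h _ _ h9)⟩
  · refine (hfin M N).subset ?_
    rintro C ⟨a, h3, h4, h5, h6, -⟩
    exact ⟨a, h3, h4, h5, h6, trivial⟩

theorem nestedG_mono (hfin : ∀ M N, (Fam k K 1 M N fun _ => True).Finite) :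
    ∀ {n : ℕ} {S : Set (Place k K)} {P Q : (Fin n → K) → (Fin n → K) → Prop},
      (∀ A B, P A B → Q A B) → NestedG k n S P → NestedG k n S Q
  | 0, _, _, _, h, h1 => h _ _ h1
  | _ + 1, _, _, _, h, h1 =>
    NestG_mono1 hfin (fun _ _ h2 => nestedG_mono hfin (fun _ _ => h _ _) h2) h1

end mono

section main

variable (k K : Type) [Field k] [Finite k] [Field K] [Algebra k K] [Algebra.EssFiniteType k K]

/-- From all curves to the curves with good reduction at the places in `S`. -/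
private theorem NestG_in (hK : Algebra.trdeg k K = 1) (h6 : (6 : k) ≠ 0)
    (hfin : ∀ M N, (Fam k K 1 M N fun _ => True).Finite) {S : Set (Place k K)} (hS : S.Finite)
    {P : K → K → Prop} (h : AlmostAllE k P) :
    AlmostAllIn k (fun a b => ∀ v ∈ S, GoodRed v a b) P := by
  intro ε hε
  obtain ⟨c, hc, M₁, h1⟩ := share k K hK h6 hS
  obtain ⟨M₂, h2⟩ := h (ε * c) (mul_pos hε hc)
  refine ⟨max M₁ M₂, fun M hM => ?_⟩
  obtain ⟨N₁, h3⟩ := h1 M ((le_max_left _ _).trans hM)
  obtain ⟨N₂, h4⟩ := h2 M ((le_max_right _ _).trans hM)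
  refine ⟨max N₁ N₂, fun N hN => ?_⟩
  have h5 := h3 N ((le_max_left _ _).trans hN)
  obtain ⟨h6, h7⟩ := h4 N ((le_max_right _ _).trans hN)
  constructor
  · have h8 : (0 : ℝ) < c * (Fam k K 1 M N fun _ => True).ncard :=
      mul_pos hc (by exact_mod_cast h6)
    exact_mod_cast h8.trans_le h5
  · have h8 : ((Fam k K 1 M N fun a => (∀ v ∈ S, GoodRed v (a 0) (a 1)) ∧
        ¬ P (a 0) (a 1)).ncard : ℝ) ≤ (Fam k K 1 M N fun a => ¬ P (a 0) (a 1)).ncard := by
      refine Nat.cast_le.2 (Set.ncard_le_ncard ?_ ?_)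
      · rintro C ⟨a, h3, h4, h5, h6, h7⟩
        exact ⟨a, h3, h4, h5, h6, h7.2⟩
      · refine (hfin M N).subset ?_
        rintro C ⟨a, h3, h4, h5, h6, -⟩
        exact ⟨a, h3, h4, h5, h6, trivial⟩
    calc _ ≤ _ := h8
      _ ≤ _ := h7
      _ = ε * (c * (Fam k K 1 M N fun _ => True).ncard) := mul_assoc _ _ _
      _ ≤ _ := mul_le_mul_of_nonneg_left h5 hε.le

private theorem NestG_gen (hK : Algebra.trdeg k K = 1) (h6 : (6 : k) ≠ 0)
    (hfin : ∀ M N, (Fam k K 1 M N fun _ => True).Finite) :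
    ∀ (n : ℕ) {S : Set (Place k K)} (_ : S.Finite) {ι : Type} [Finite ι] {A₀ B₀ : ι → K},
      IT k A₀ B₀ → NestedG k n S fun (A B : Fin n → K) => IT k (Sum.elim A₀ A) (Sum.elim B₀ B)
  | 0, _, _, _, _, _, _, h => it_zero h
  | n + 1, S, hS, _, _, A₀, B₀, h => by
    refine NestG_mono1 hfin (fun a b hab => ?_)
      (NestG_in k K hK h6 hfin hS (curve_step k K hK h6 h.1 h.2))
    have hd : -4 * a ^ 3 - 27 * b ^ 2 ≠ 0 := by
      intro h
      refine hab.1.disc {none} (Finset.singleton_nonempty _) 1 0 isAlgebraic_one ?_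
      rw [Finset.prod_singleton]
      change -4 * a ^ 3 - 27 * b ^ 2 = _
      rw [h]
      ring
    exact nestedG_mono hfin (fun _ _ h2 => it_cons h2)
      (NestG_gen hK h6 hfin n (hS.union (bad_finite k K hK hd)) hab)

/-- **All `n`-tuples of elliptic curves with disjoint sets of bad places.** -/
theorem nested_good (hK : Algebra.trdeg k K = 1) (h6 : (6 : k) ≠ 0) (n : ℕ) :
    (∀ M N, (Fam k K 1 M N fun _ => True).Finite) ∧
    NestedG k n ∅ fun (A B : Fin n → K) => IT k A B := by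
  have hfin : ∀ M N, (Fam k K 1 M N fun _ => True).Finite := (nested_curves k K hK h6 n).1
  exact ⟨hfin, nestedG_mono hfin (fun A B h3 => it_comp h3 (e := Sum.inr) Sum.inr_injective)
    (NestG_gen k K hK h6 hfin n Set.finite_empty (it_empty k K))⟩

end main

end Pool.Agent.TTA
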