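import Pool.Agent.Lib.TTA.FPDefs
import Pool.Agent.Lib.TTN.ComT
import Pool.Agent.Lib.TTA.NestG

/-!
# The proof of MP_950c68_ag.FibreProducts from the theorems of the projects TTN and TTA
-/

set_option autoImplicit false

open Polynomial TensorProduct Pool.Agent.SmN.Stm Pool.Agent.HA
open Pool.Agent.BSDFF (Place)

namespace Pool.Agent.TTA.FP

section

variable {K : Type} [Field K] (Ω : Type) [Field Ω] [Algebra K Ω] {n : ℕ}
  (W : Fin n → WeierstrassCurve K)

private noncomputable def tEquiv (W : WeierstrassCurve K) : TTC.T2 Ω W ≃ₗ[ℤ_[2]] T2 Ω W :=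
  LinearEquiv.refl ℤ_[2] (T2 Ω W)

private noncomputable def tensEquiv :
    (⨂[ℤ_[2]] i, TTC.T2 Ω (W i)) ≃ₗ[ℤ_[2]] (⨂[ℤ_[2]] i, T2 Ω (W i)) :=
  PiTensorProduct.congr fun i => tEquiv Ω (W i)

private noncomputable def tm (x : ⨂[ℤ_[2]] i, T2 Ω (W i))
    (y : ℚ_[2] ⧸ (1 : Submodule ℤ_[2] ℚ_[2])) : ModN Ω W :=
  x ⊗ₜ[ℤ_[2]] y

private noncomputable def modEquiv : TTC.ModN Ω W ≃ₗ[ℤ_[2]] ModN Ω W :=
  TensorProduct.congr (tensEquiv Ω W) (LinearEquiv.refl ℤ_[2] _)

private theorem tensEquiv_act (s : Ω ≃ₐ[K] Ω) (x : ⨂[ℤ_[2]] i, TTC.T2 Ω (W i)) :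
    PiTensorProduct.map (fun i => actT2 Ω (W i) s) (tensEquiv Ω W x) =
      tensEquiv Ω W (PiTensorProduct.map (fun i => TTC.actT2 Ω (W i) s) x) := by
  induction x using PiTensorProduct.induction_on with
  | smul_tprod r x =>
    rw [map_smul, map_smul, map_smul, map_smul]
    congr 1
  | add x y hx hy => simp only [map_add, hx, hy]

private theorem modEquiv_tmul (x : ⨂[ℤ_[2]] i, TTC.T2 Ω (W i))
    (y : ℚ_[2] ⧸ (1 : Submodule ℤ_[2] ℚ_[2])) :
    modEquiv Ω W (x ⊗ₜ[ℤ_[2]] y) = tm Ω W (tensEquiv Ω W x) y := rfl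

private theorem actMod_tmul (s : Ω ≃ₐ[K] Ω) (x : ⨂[ℤ_[2]] i, T2 Ω (W i))
    (y : ℚ_[2] ⧸ (1 : Submodule ℤ_[2] ℚ_[2])) :
    actMod Ω W s (tm Ω W x y) = tm Ω W (PiTensorProduct.map (fun i => actT2 Ω (W i) s) x) y := rfl

private theorem actMod_equiv (s : Ω ≃ₐ[K] Ω) (x : TTC.ModN Ω W) :
    actMod Ω W s (modEquiv Ω W x) =
      modEquiv Ω W (TensorProduct.map (PiTensorProduct.map fun i => TTC.actT2 Ω (W i) s)
        LinearMap.id x) := by
  induction x using TensorProduct.induction_on with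
  | zero => simp only [map_zero]
  | tmul x y =>
    refine (congrArg (actMod Ω W s) (modEquiv_tmul Ω W x y)).trans ?_
    refine (actMod_tmul Ω W s _ y).trans ?_
    rw [tensEquiv_act, TensorProduct.map_tmul]
    exact (modEquiv_tmul Ω W _ y).symm
  | add x y hx hy => simp only [map_add, hx, hy]

private theorem quadChar_one (s : Ω ≃ₐ[K] Ω) : TTC.quadChar Ω 1 s = 1 := by
  rw [TTC.quadChar, if_pos]
  intro r hr
  rw [map_one] at hr
  have h1 : (r - 1) * (r + 1) = 0 := by linear_combination hr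
  rcases mul_eq_zero.1 h1 with h | h
  · rw [sub_eq_zero.1 h, map_one]
  · rw [eq_neg_of_add_eq_zero_left h, map_neg, map_one]

private theorem modEquiv_act (m : ℕ) (s : Ω ≃ₐ[K] Ω) (x : TTC.ModN Ω W) :
    modEquiv Ω W (TTC.actN Ω W m 1 s x) = actN Ω W m s (modEquiv Ω W x) := by
  change _ = (cycPow Ω m s : ℤ_[2]) • actMod Ω W s (modEquiv Ω W x)
  rw [actMod_equiv, ← map_smul, TTC.actN, quadChar_one]
  refine congrArg _ ?_
  exact one_zsmul _

end

section

variable {k K : Type} [Field k] [Field K] [Algebra k K] {n : ℕ}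

private theorem good_of {A B : Fin n → K} (hI : Independent k A B) (h : TTN.Tup k A B) :
    Good k A B := by
  refine ⟨hI, fun m g hg ho hm => ?_, h.ord⟩
  obtain ⟨r, hr, h1⟩ := h.tensor m g hg ho hm
  exact ⟨r, hr, SmN.Fnl.hasCorank_iso
    (modEquiv (SeparableClosure K) fun i => curve (A (g i)) (B (g i))).toAddEquiv
    (fun s x => modEquiv_act _ _ _ s x) h1⟩

/-- Independence is stable under quadratic twists. -/
private theorem indep_tw {A B : Fin n → K} (h : Independent k A B) {d : K} (hd : d ≠ 0) :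
    Independent k (fun i => A i * d ^ 2) (fun i => B i * d ^ 3) := by
  refine ⟨fun i x hx => h.root i (x / d) ?_, fun J hJ c s hc hs =>
    h.disc J hJ c (s / (d ^ 3) ^ J.card) hc ?_⟩
  · have h1 : (x / d) ^ 3 + A i * (x / d) + B i =
        (x ^ 3 + A i * d ^ 2 * x + B i * d ^ 3) / d ^ 3 := by
      field_simp
    rw [h1, hx, zero_div]
  · have h1 : ∏ i ∈ J, disc (A i * d ^ 2) (B i * d ^ 3) =
        (∏ i ∈ J, disc (A i) (B i)) * ((d ^ 3) ^ J.card) ^ 2 := by
      have h2 : ∀ i, disc (A i * d ^ 2) (B i * d ^ 3) = disc (A i) (B i) * (d ^ 3) ^ 2 := by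
        intro i
        rw [disc, disc]
        ring
      rw [Finset.prod_congr rfl fun i _ => h2 i, Finset.prod_mul_distrib, Finset.prod_const,
        pow_right_comm (d ^ 3) 2]
    have h3 : ((d ^ 3) ^ J.card) ^ 2 ≠ 0 := pow_ne_zero _ (pow_ne_zero _ (pow_ne_zero _ hd))
    rw [h1] at hs
    rw [div_pow, ← mul_div_assoc, ← hs, mul_div_cancel_right₀ _ h3]

/-- `AlmostAll` is monotone. -/
private theorem almostAll_mono {P Q : K → Prop} (hfin : ∀ N, (Twists k N fun _ : K => True).Finite)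
    (h : ∀ d, d ≠ 0 → P d → Q d) (hP : AlmostAll k fun _ (d : K) => P d) :
    AlmostAll k fun _ (d : K) => Q d := by
  intro ε hε
  obtain ⟨j, N₀, h1⟩ := hP ε hε
  refine ⟨j, N₀, fun N hN => le_trans (Nat.cast_le.2 (Set.ncard_le_ncard ?_ ?_)) (h1 N hN)⟩
  · rintro c ⟨d, hd, hd', hd''⟩
    exact ⟨d, hd, hd', fun h2 => hd'' (h _ d.ne_zero h2)⟩
  · refine (hfin N).subset ?_
    rintro c ⟨d, hd, hd', -⟩
    exact ⟨d, hd, hd', trivial⟩

private theorem nested_of (hfin : ∀ M N, (Fam k K 1 M N fun _ => True).Finite) :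
    ∀ {n : ℕ} {S : Set (Place k K)} {P Q : (Fin n → K) → (Fin n → K) → Prop},
      (∀ A B, P A B → Q A B) → TTA.NestedG k n S P → Nested k n S Q
  | 0, _, _, _, h, h1 => h _ _ h1
  | n + 1, S, P, Q, h, h1 => by
    intro ε hε
    obtain ⟨M₀, h2⟩ := h1 ε hε
    refine ⟨M₀, fun M hM => ?_⟩
    obtain ⟨N₀, h3⟩ := h2 M hM
    refine ⟨N₀, fun N hN => ⟨(h3 N hN).1, le_trans (Nat.cast_le.2 (Set.ncard_le_ncard ?_ ?_))
      (h3 N hN).2⟩⟩
    · rintro C ⟨a, h4, h5, h6, h7, h8, h9⟩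
      exact ⟨a, h4, h5, h6, h7, h8, fun h10 => h9 (nested_of hfin (fun _ _ => h _ _) h10)⟩
    · refine (hfin M N).subset ?_
      rintro C ⟨a, h4, h5, h6, h7, -⟩
      exact ⟨a, h4, h5, h6, h7, trivial⟩

end

/-- The theorem. -/
theorem main (k K : Type) [Field k] [Finite k] [Field K] [Algebra k K]
    [Algebra.EssFiniteType k K] (hK : Algebra.trdeg k K = 1) (h6 : (6 : k) ≠ 0) (n : ℕ) :
    (∀ M N, (Fam k K 1 M N fun _ => True).Finite) ∧
    (∀ N, (Twists k N fun _ : K => True).Finite) ∧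
    (Nested k n ∅ fun (A B : Fin n → K) => Good k A B) ∧
    ∀ A B : Fin n → K, Independent k A B → AlmostAll k fun _ (d : K) => GoodTwist k A B d := by
  obtain ⟨h1, h2⟩ := TTA.nested_good k K hK h6 n
  have h3 : ∀ N, (Twists k N fun _ : K => True).Finite :=
    (TTN.common_all k K hK h6 (n := 0) (A := Fin.elim0) (B := Fin.elim0)
      ⟨fun i => i.elim0, fun J hJ => by
        obtain ⟨i, -⟩ := hJ
        exact i.elim0⟩).1
  exact ⟨h1, h3, nested_of h1 (fun _ _ h => good_of ⟨h.1.root, h.1.disc⟩ h.2) h2, fun A B h =>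
    almostAll_mono h3 (fun _ hd => good_of (indep_tw h hd))
      (TTN.common_all k K hK h6 ⟨h.root, h.disc⟩).2⟩

end Pool.Agent.TTA.FP
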