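import Pool.Agent.Lib.TTA.Defs
import Pool.Agent.Lib.HA.Fin

/-!
# Project TTA (MP_950c68_ag), module Frame: from the twists of the generic shapes to the family

PROOF. Port of `fam_frame` and `fam_gen` in `Pool/Agent/Lib/HA/Fin.lean` with an additional
condition `Q` on the shapes, stable under scaling: the generic shapes are now those which are not
in `Shapes k K g M fun a => ¬ (GenS k m a ∧ Q a)`, which has at most as many elements as the two
sets of `most_gen` and of `hmost` together; `exists_rep` (the representatives `r z`): `Q (r z)` for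
these `z`, because `Q` is stable under scaling (the representative is `sc u a`). The rest is as
there.
-/

set_option autoImplicit false

open Polynomial

namespace Pool.Agent.TTA

open Pool.Agent.BSDFF Pool.Agent.GBC Pool.Agent.GBU Pool.Agent.HA
open IsLocalRing (ResidueField residue)

variable {k K : Type} [Field k] [Field K] [Algebra k K]
variable [Finite k] [Algebra (RatFunc k) K] [IsScalarTower k (RatFunc k) K]
  [FiniteDimensional (RatFunc k) K] [Algebra.IsSeparable (RatFunc k) K]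

variable {g : ℕ}

section num

private theorem num_goodQ {F A B FG TG ε : ℝ} (hA : A ≤ F) (hB : B ≤ ε / 4 * A) (hε : 0 < ε)
    (h1 : FG ≤ TG + B) (h2 : TG ≤ ε / 4 * A) (hA0 : 0 ≤ A) : FG ≤ ε * F := by
  have h3 : ε / 4 * A ≤ ε / 4 * F := mul_le_mul_of_nonneg_left hA (by linarith)
  have h4 : 0 ≤ ε * F := mul_nonneg hε.le (hA0.trans hA)
  linarith

end num

omit [Finite k] [Algebra (RatFunc k) K] [IsScalarTower k (RatFunc k) K]
  [FiniteDimensional (RatFunc k) K] [Algebra.IsSeparable (RatFunc k) K] in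
/-- The representatives of the generic shapes with the property `Q`. -/
private theorem exists_repQ (Q : (Fin (2 * g) → K) → Prop)
    (hQ : ∀ (u : K) a, u ≠ 0 → Q a → Q (sc u a)) (M : ℕ) : ∃ r : Shp K g → Fin (2 * g) → K,
    (∀ z, Quotient.mk (scRel K g) (r z) = z) ∧
    (∀ z, (z ∈ Shapes k K g M fun _ => True) → (pol g (r z)).Separable) ∧
    ∀ z, (z ∈ Shapes k K g M fun _ => True) →
      (z ∉ Shapes k K g M fun a => ¬ (GenS k 0 a ∧ Q a)) → GenR k 0 (r z) ∧ Q (r z) := by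
  classical
  have h1 : ∀ z : Shp K g, ∃ b : Fin (2 * g) → K, Quotient.mk (scRel K g) b = z ∧
      ((z ∈ Shapes k K g M fun _ => True) →
        (z ∉ Shapes k K g M fun a => ¬ (GenS k 0 a ∧ Q a)) → GenR k 0 b ∧ Q b) := by
    intro z
    by_cases hz : (z ∈ Shapes k K g M fun _ => True) ∧
        (z ∉ Shapes k K g M fun a => ¬ (GenS k 0 a ∧ Q a))
    · obtain ⟨⟨a, ha, hs, hh, -⟩, h3⟩ := hz
      have h4 : GenS k 0 a ∧ Q a := by
        by_contra h5
        exact h3 ⟨a, ha, hs, hh, h5⟩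
      obtain ⟨⟨hne, u, hu, hA, hB, hC, hN⟩, hQa⟩ := h4
      refine ⟨sc u a, ?_, fun _ _ => ⟨⟨fun j hj => mul_ne_zero (pow_ne_zero _ hu) (hne j hj),
        hA, hB, hC, hN⟩, hQ u a hu hQa⟩⟩
      rw [← ha]
      exact (Quotient.sound (s := scRel K g) (a := a) (b := sc u a) ⟨u, hu, rfl⟩).symm
    · obtain ⟨b, hb⟩ := Quotient.exists_rep z
      exact ⟨b, hb, fun h4 h5 => absurd ⟨h4, h5⟩ hz⟩
  choose r hr hr' using h1
  refine ⟨r, hr, fun z hz => ?_, hr'⟩
  obtain ⟨a, ha, hs, -, -⟩ := hz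
  obtain ⟨u, hu, h2⟩ := Quotient.exact (ha.trans (hr z).symm)
  rw [h2]
  exact sep_sc hs hu

/-- Most shapes are generic with the property `Q`. -/
private theorem most_genQ (hk : ∀ x : K, IsIntegral k x → ∃ c : k, algebraMap k K c = x)
    (hg : 1 ≤ g) (hp : ((2 * g + 1).factorial : k) ≠ 0) (Q : (Fin (2 * g) → K) → Prop)
    (hmost : ∀ ε : ℝ, 0 < ε → ∃ M₀ : ℕ, ∀ M ≥ M₀,
      ((Shapes k K g M fun a => ¬ Q a).ncard : ℝ) ≤ ε * (Shapes k K g M fun _ => True).ncard)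
    (ε : ℝ) (hε : 0 < ε) :
    ∃ M₀ : ℕ, ∀ M ≥ M₀, ((Shapes k K g M fun a => ¬ (GenS k 0 a ∧ Q a)).ncard : ℝ) ≤
      ε * (Shapes k K g M fun _ => True).ncard := by
  obtain ⟨M₁, h1⟩ := most_gen (K := K) hk hg hp 0 (ε / 2) (by linarith)
  obtain ⟨M₂, h2⟩ := hmost (ε / 2) (by linarith)
  refine ⟨max M₁ M₂, fun M hM => ?_⟩
  have h3 := h1 M ((le_max_left _ _).trans hM)
  have h4 := h2 M ((le_max_right _ _).trans hM)
  have hf : (Shapes k K g M fun _ => True).Finite := finite_shapes hg M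
  have hmono : ∀ P : (Fin (2 * g) → K) → Prop, (Shapes k K g M P).Finite := by
    intro P
    refine hf.subset ?_
    rintro z ⟨a, ha, hs, hh, -⟩
    exact ⟨a, ha, hs, hh, trivial⟩
  have hsub : (Shapes k K g M fun a => ¬ (GenS k 0 a ∧ Q a)) ⊆
      (Shapes k K g M fun a => ¬ GenS k 0 a) ∪ Shapes k K g M fun a => ¬ Q a := by
    rintro z ⟨a, ha, hs, hh, hP⟩
    by_cases h5 : GenS k 0 a
    · exact Or.inr ⟨a, ha, hs, hh, fun h6 => hP ⟨h5, h6⟩⟩
    · exact Or.inl ⟨a, ha, hs, hh, h5⟩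
  have h5 := (Set.ncard_le_ncard hsub ((hmono _).union (hmono _))).trans
    (Set.ncard_union_le _ _)
  have h6 : ((Shapes k K g M fun a => ¬ (GenS k 0 a ∧ Q a)).ncard : ℝ) ≤
      (Shapes k K g M fun a => ¬ GenS k 0 a).ncard +
        (Shapes k K g M fun a => ¬ Q a).ncard := by
    exact_mod_cast h5
  linarith

/-- The reduction to the finitely many generic shapes. -/
private theorem fam_frameQ (hk : ∀ x : K, IsIntegral k x → ∃ c : k, algebraMap k K c = x) (hg : 1 ≤ g)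
    (hp : ((2 * g + 1).factorial : k) ≠ 0) (Q : (Fin (2 * g) → K) → Prop)
    (hQ : ∀ (u : K) a, u ≠ 0 → Q a → Q (sc u a))
    (hmost : ∀ ε : ℝ, 0 < ε → ∃ M₀ : ℕ, ∀ M ≥ M₀,
      ((Shapes k K g M fun a => ¬ Q a).ncard : ℝ) ≤ ε * (Shapes k K g M fun _ => True).ncard)
    {ε : ℝ} (hε : 0 < ε) :
    ∃ M₀ : ℕ, ∀ M ≥ M₀, ∃ (Z : Finset (Shp K g)) (r : Shp K g → Fin (2 * g) → K),
      (∀ z ∈ Z, (pol g (r z)).Separable ∧ GenR k 0 (r z) ∧ Q (r z)) ∧ ∃ N₀ : ℕ, ∀ N ≥ N₀, ∃ B : ℝ,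
        0 < ∑ z ∈ Z, ((TwO k (Od k (r z)) N fun _ => True).ncard : ℝ) ∧
        B ≤ ε / 4 * ∑ z ∈ Z, ((TwO k (Od k (r z)) N fun _ => True).ncard : ℝ) ∧
        ∀ P : (Fin (2 * g) → K) → Prop,
          ((Fam k K g M N P).ncard : ℝ) ≤
            ∑ z ∈ Z, ((TwO k (Od k (r z)) N fun d => P (sc d (r z))).ncard : ℝ) + B ∧
          ∑ z ∈ Z, ((TwO k (Od k (r z)) N fun d => P (sc d (r z))).ncard : ℝ) ≤
            (Fam k K g M N P).ncard := by
  classical
  obtain ⟨G, -⟩ := exists_geo k K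
  have hT : ∀ (N : ℕ) (O : Set (Place k K)), O.Finite → (TwO k O N fun _ => True).Finite :=
    fun N O hO => finite_TwO hO N
  have h2 : (2 : k) ≠ 0 := by
    intro h
    apply hp
    have h3 : 2 ∣ (2 * g + 1).factorial := Nat.dvd_factorial (by norm_num) (by omega)
    obtain ⟨t, ht⟩ := h3
    rw [ht, Nat.cast_mul, Nat.cast_ofNat, h, zero_mul]
  obtain ⟨c, C, hc, hC, hb⟩ := TwO_bounds (k := k) (K := K) h2 hk
  set ε₂ : ℝ := min (1 / 2) (ε * c / (8 * C)) with hε₂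
  have hε₂0 : 0 < ε₂ := lt_min (by norm_num) (by positivity)
  have hε₂1 : ε₂ ≤ 1 / 2 := min_le_left _ _
  have hε₂2 : ε₂ * (8 * C) ≤ ε * c := by
    have := min_le_right (1 / 2) (ε * c / (8 * C))
    rw [← hε₂, le_div_iff₀ (by positivity)] at this
    exact this
  obtain ⟨M₁, hM₁⟩ := most_genQ hk hg hp Q hmost ε₂ hε₂0
  obtain ⟨M₂, hM₂⟩ := pos_shapes (K := K) hk hg hp
  refine ⟨max M₁ M₂, fun M hM => ?_⟩
  have h4 := hM₁ M ((le_max_left _ _).trans hM)
  have h5 := hM₂ M ((le_max_right _ _).trans hM)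
  obtain ⟨r, hr, hsep, hgen⟩ := exists_repQ (k := k) (K := K) (g := g) Q hQ M
  have hZf : (Shapes k K g M fun _ => True).Finite := finite_shapes hg M
  set Z : Finset (Shp K g) := hZf.toFinset with hZ
  have hmZ : ∀ z, z ∈ Z ↔ z ∈ Shapes k K g M fun _ => True := fun z =>
    Set.Finite.mem_toFinset _
  set Zg := Z.filter fun z => z ∉ Shapes k K g M fun a => ¬ (GenS k 0 a ∧ Q a) with hZg
  set Zb := Z.filter fun z => ¬ (z ∉ Shapes k K g M fun a => ¬ (GenS k 0 a ∧ Q a)) with hZb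
  have hcard : (Z.card : ℝ) = Zg.card + Zb.card := by
    have := Finset.card_filter_add_card_filter_not (s := Z)
      (p := fun z => z ∉ Shapes k K g M fun a => ¬ (GenS k 0 a ∧ Q a))
    exact_mod_cast this.symm
  have hZc : (Shapes k K g M fun _ => True).ncard = Z.card := Set.ncard_eq_toFinset_card _ hZf
  have hZbc : (Zb.card : ℝ) ≤ ε₂ * Z.card := by
    rw [← hZc]
    refine le_trans ?_ h4
    have h6 : (Zb : Set (Shp K g)) ⊆ Shapes k K g M fun a => ¬ (GenS k 0 a ∧ Q a) := by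
      intro z hz
      exact not_not.1 (Finset.mem_filter.1 (Finset.mem_coe.1 hz)).2
    have h7 : (Shapes k K g M fun a => ¬ (GenS k 0 a ∧ Q a)).Finite := by
      refine hZf.subset ?_
      rintro z ⟨a, ha, hs, hh, -⟩
      exact ⟨a, ha, hs, hh, trivial⟩
    have h8 := Set.ncard_le_ncard h6 h7
    rw [Set.ncard_coe_finset] at h8
    exact_mod_cast h8
  have hZpos : (0 : ℝ) < Z.card := by
    rw [← hZc]
    exact_mod_cast h5
  have hOf : ∀ z ∈ Z, (Od k (r z)).Finite := fun z hz =>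
    Od_finite G (ne_zero_of_sep hg (hsep z ((hmZ z).1 hz)))
  have hbz : ∀ z : Shp K g, ∃ N₀ : ℕ, z ∈ Z → ∀ N ≥ N₀,
      c * (Nat.card k : ℝ) ^ N ≤ (TwO k (Od k (r z)) N fun _ => True).ncard ∧
      ((TwO k (Od k (r z)) N fun _ => True).ncard : ℝ) ≤ C * (Nat.card k : ℝ) ^ N := by
    intro z
    by_cases hz : z ∈ Z
    · obtain ⟨N₀, h8⟩ := hb _ (hOf z hz)
      exact ⟨N₀, fun _ N hN => ⟨(h8 N hN).1, (h8 N hN).2.1⟩⟩
    · exact ⟨0, fun h => absurd h hz⟩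
  choose N₂ hN₂ using hbz
  refine ⟨Zg, r, fun z hz => ⟨hsep z ((hmZ z).1 (Finset.mem_filter.1 hz).1),
    hgen z ((hmZ z).1 (Finset.mem_filter.1 hz).1) (Finset.mem_filter.1 hz).2⟩, Z.sup N₂,
    fun N hN => ?_⟩
  have hNz2 : ∀ z ∈ Z, N ≥ N₂ z := fun z hz => (Finset.le_sup (f := N₂) hz).trans hN
  have hfam : ∀ P : (Fin (2 * g) → K) → Prop, (Fam k K g M N P).Finite := fun P =>
    (fam_le G hg M N P (hT N) r hr hmZ).1
  set qN : ℝ := (Nat.card k : ℝ) ^ N with hqN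
  have hQ0 : 0 < qN := by
    have : 0 < Nat.card k := Nat.card_pos
    positivity
  set A : ℝ := ∑ z ∈ Zg, ((TwO k (Od k (r z)) N fun _ => True).ncard : ℝ) with hA
  set B : ℝ := ∑ z ∈ Zb, ((TwO k (Od k (r z)) N fun _ => True).ncard : ℝ) with hB
  have hA1 : (Zg.card : ℝ) * (c * qN) ≤ A := by
    rw [hA, ← nsmul_eq_mul]
    exact Finset.card_nsmul_le_sum _ _ _ fun z hz =>
      (hN₂ z (Finset.mem_filter.1 hz).1 N (hNz2 z (Finset.mem_filter.1 hz).1)).1
  have hB1 : B ≤ Zb.card * (C * qN) := by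
    rw [hB, ← nsmul_eq_mul]
    exact Finset.sum_le_card_nsmul _ _ _ fun z hz =>
      (hN₂ z (Finset.mem_filter.1 hz).1 N (hNz2 z (Finset.mem_filter.1 hz).1)).2
  have hZg : (Z.card : ℝ) / 2 ≤ Zg.card := by
    have : ε₂ * Z.card ≤ 1 / 2 * Z.card := mul_le_mul_of_nonneg_right hε₂1 hZpos.le
    linarith
  have hA2 : (Z.card : ℝ) / 2 * (c * qN) ≤ A :=
    (mul_le_mul_of_nonneg_right hZg (by positivity)).trans hA1
  refine ⟨B, lt_of_lt_of_le (by positivity) hA2, ?_, fun P => ⟨?_, ?_⟩⟩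
  · calc B ≤ Zb.card * (C * qN) := hB1
      _ ≤ ε₂ * Z.card * (C * qN) := mul_le_mul_of_nonneg_right hZbc (by positivity)
      _ = ε₂ * (8 * C) * (Z.card / 8 * qN) := by ring
      _ ≤ ε * c * (Z.card / 8 * qN) := mul_le_mul_of_nonneg_right hε₂2 (by positivity)
      _ = ε / 4 * (Z.card / 2 * (c * qN)) := by ring
      _ ≤ ε / 4 * A := mul_le_mul_of_nonneg_left hA2 (by positivity)
  · have h6 := (fam_le G hg M N P (hT N) r hr hmZ).2
    have h7 : ((∑ z ∈ Z, (TwO k (Od k (r z)) N fun d => P (sc d (r z))).ncard : ℕ) : ℝ) =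
        ∑ z ∈ Zg, ((TwO k (Od k (r z)) N fun d => P (sc d (r z))).ncard : ℝ) +
          ∑ z ∈ Zb, ((TwO k (Od k (r z)) N fun d => P (sc d (r z))).ncard : ℝ) := by
      rw [Nat.cast_sum]
      exact (Finset.sum_filter_add_sum_filter_not Z _ _).symm
    have h8 : ∑ z ∈ Zb, ((TwO k (Od k (r z)) N fun d => P (sc d (r z))).ncard : ℝ) ≤ B := by
      refine Finset.sum_le_sum fun z hz => ?_
      have := Set.ncard_le_ncard (TwO_mono (O := Od k (r z)) (N := N)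
        (P := fun d => P (sc d (r z))) (Q := fun _ => True) fun _ _ => trivial)
        (hT N _ (hOf z (Finset.mem_filter.1 hz).1))
      exact_mod_cast this
    have h9 : ((Fam k K g M N P).ncard : ℝ) ≤
      ((∑ z ∈ Z, (TwO k (Od k (r z)) N fun d => P (sc d (r z))).ncard : ℕ) : ℝ) := by
      exact_mod_cast h6
    linarith
  · have h6 := le_fam G hg M N P (hT N) (hfam P) r hr (Z := Zg) fun z hz =>
      ⟨(hmZ z).1 (Finset.mem_filter.1 hz).1,
        ((hgen z ((hmZ z).1 (Finset.mem_filter.1 hz).1) (Finset.mem_filter.1 hz).2).1).ne⟩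
    exact_mod_cast h6

/-- From the twists of one generic shape to the family. -/
theorem fam_genQ (hk : ∀ x : K, IsIntegral k x → ∃ c : k, algebraMap k K c = x) (hg : 1 ≤ g)
    (hp : ((2 * g + 1).factorial : k) ≠ 0) (Q E : (Fin (2 * g) → K) → Prop)
    (hQ : ∀ (u : K) a, u ≠ 0 → Q a → Q (sc u a))
    (hmost : ∀ ε : ℝ, 0 < ε → ∃ M₀ : ℕ, ∀ M ≥ M₀,
      ((Shapes k K g M fun a => ¬ Q a).ncard : ℝ) ≤ ε * (Shapes k K g M fun _ => True).ncard)
    (hE : ∀ b : Fin (2 * g) → K, (pol g b).Separable → GenR k 0 b → Q b → ∀ ε : ℝ, 0 < ε →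
      ∃ N₀ : ℕ, ∀ N ≥ N₀, ((TwO k (Od k b) N fun d => ¬ E (sc d b)).ncard : ℝ) ≤
        ε * (TwO k (Od k b) N fun _ => True).ncard) (ε : ℝ) (hε : 0 < ε) :
    ∃ M₀ : ℕ, ∀ M ≥ M₀, ∃ N₀ : ℕ, ∀ N ≥ N₀,
      0 < (Fam k K g M N fun _ => True).ncard ∧
      ((Fam k K g M N fun a => ¬ E a).ncard : ℝ) ≤
        ε * (Fam k K g M N fun _ => True).ncard := by
  classical
  obtain ⟨M₀, h1⟩ := fam_frameQ (K := K) hk hg hp Q hQ hmost hε
  refine ⟨M₀, fun M hM => ?_⟩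
  obtain ⟨Z, r, hZ, N₁, h3⟩ := h1 M hM
  have h4 : ∀ z : Shp K g, ∃ N₀ : ℕ, z ∈ Z → ∀ N ≥ N₀,
      ((TwO k (Od k (r z)) N fun d => ¬ E (sc d (r z))).ncard : ℝ) ≤
        ε / 4 * (TwO k (Od k (r z)) N fun _ => True).ncard := by
    intro z
    by_cases hz : z ∈ Z
    · obtain ⟨N₀, h5⟩ := hE _ (hZ z hz).1 (hZ z hz).2.1 (hZ z hz).2.2 (ε / 4) (by linarith)
      exact ⟨N₀, fun _ => h5⟩
    · exact ⟨0, fun h => absurd h hz⟩
  choose N₂ hN₂ using h4
  refine ⟨max N₁ (Z.sup N₂), fun N hN => ?_⟩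
  have hNz : ∀ z ∈ Z, N ≥ N₂ z := fun z hz =>
    ((Finset.le_sup (f := N₂) hz).trans (le_max_right _ _)).trans hN
  obtain ⟨B, hA0, hBA, hP⟩ := h3 N ((le_max_left _ _).trans hN)
  have hAF := (hP fun _ => True).2
  refine ⟨by exact_mod_cast lt_of_lt_of_le hA0 hAF, ?_⟩
  refine num_goodQ hAF hBA hε (hP fun a => ¬ E a).1 ?_ hA0.le
  rw [Finset.mul_sum]
  exact Finset.sum_le_sum fun z hz => hN₂ z hz N (hNz z hz)

end Pool.Agent.TTA
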