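import Pool.Agent.Lib.TTA.DefG
import Pool.Agent.Lib.HA.Low

/-!
# Project TTA (MP_950c68_ag), module LowS: lower bound for the number of the shapes with given
# reductions at the places of a finite set

PROOF. Port of `le_shapes` in `Pool/Agent/Lib/HA/Low.lean`: `sieve`, `exists_box` and `hrep` with
the set `insert v₀ S` instead of `{v₀}`, and `A = {a | a ∈ Box g D ∧ At v₀ TypA a ∧ ∀ v ∈ S,
redV v a ∈ Z v}` (`intV_of_mem_Box`), which has at least `c₀ * c₁ * Nat.card (Box g D)` elements,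
`c₁ = ∏ v ∈ S, (Nat.card (Fin (2 * g) → ResidueField v.ring))⁻¹` (`(Z v).ncard ≥ 1`). The private
lemmas of that file have to be copied.
-/

set_option autoImplicit false

open Polynomial

namespace Pool.Agent.TTA

open Pool.Agent.BSDFF Pool.Agent.GBC Pool.Agent.GBU Pool.Agent.HA
open IsLocalRing (ResidueField residue)

variable {k K : Type} [Field k] [Field K] [Algebra k K]

/-- Gauss: a vector of type `A` at `v` has an irreducible polynomial. -/
private theorem LowS_irreducible {g : ℕ} {v : Place k K} {a : Fin (2 * g) → K}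
    (h : At v TypA a) : Irreducible (pol g a) := by
  obtain ⟨hi, ht⟩ := h
  let b : Fin (2 * g) → v.ring := fun j => ⟨a j, hi j⟩
  have h1 : (pol g b).map (residue v.ring) = pol g (redV v a) := by
    rw [map_pol]
    congr 1
    funext j
    exact (red_of_mem v (hi j)).symm
  have h2 : (pol g b).map (algebraMap v.ring K) = pol g a := by
    rw [map_pol]
    rfl
  have hm : (pol g b).Monic := pol_monic _ b
  have h3 : Irreducible (pol g b) := by
    refine Monic.irreducible_of_irreducible_map (residue v.ring) _ hm ?_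
    rw [h1]
    exact ht
  rw [← h2]
  exact (Monic.irreducible_iff_irreducible_map_fraction_map (K := K) hm).1 h3

/-- Separability. -/
private theorem LowS_separable {g : ℕ} (hp : ((2 * g + 1).factorial : k) ≠ 0)
    {a : Fin (2 * g) → K} (h : Irreducible (pol g a)) : (pol g a).Separable := by
  rw [separable_iff_derivative_ne_zero h]
  intro h0
  have h1 := congrArg (fun f => f.coeff (2 * g)) h0
  beta_reduce at h1
  rw [coeff_derivative, coeff_zero] at h1
  have h2 : (pol g a).coeff (2 * g + 1) = 1 := by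
    have h3 := (pol_monic _ a).coeff_natDegree
    rwa [natDegree_pol] at h3
  rw [h2, one_mul] at h1
  have h4 : ((2 * g + 1 : ℕ) : K) = 0 := by
    push_cast
    push_cast at h1
    exact h1
  apply hp
  have h5 : ((2 * g + 1 : ℕ) : k) = 0 := by
    apply (algebraMap k K).injective
    rw [map_natCast, map_zero]
    exact h4
  rw [Nat.factorial_succ, Nat.cast_mul, h5, zero_mul]

/-- Cauchy-Schwarz for the fibres of a map. -/
private theorem LowS_cs {α β : Type*} [DecidableEq α] [DecidableEq β] (s : Finset α) (f : α → β) :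
    s.card ^ 2 ≤ (s.image f).card * ((s ×ˢ s).filter fun p => f p.1 = f p.2).card := by
  classical
  have h1 : s.card = ∑ z ∈ s.image f, (s.filter fun a => f a = z).card :=
    Finset.card_eq_sum_card_image f s
  have h2 : ((s ×ˢ s).filter fun p => f p.1 = f p.2).card =
      ∑ z ∈ s.image f, (s.filter fun a => f a = z).card ^ 2 := by
    rw [Finset.card_eq_sum_card_fiberwise (f := fun p : α × α => f p.1) (t := s.image f)]
    · refine Finset.sum_congr rfl fun z _ => ?_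
      rw [sq, ← Finset.card_product]
      congr 1
      ext p
      simp only [Finset.mem_filter, Finset.mem_product]
      constructor
      · rintro ⟨⟨⟨h3, h4⟩, h5⟩, h6⟩
        exact ⟨⟨h3, h6⟩, h4, h5 ▸ h6⟩
      · rintro ⟨⟨h3, h6⟩, h4, h7⟩
        exact ⟨⟨⟨h3, h4⟩, h6.trans h7.symm⟩, h6⟩
    · intro p hp
      rw [Finset.mem_coe, Finset.mem_filter, Finset.mem_product] at hp
      exact Finset.mem_coe.2 (Finset.mem_image_of_mem f hp.1.1)
  rw [h2]
  conv_lhs => rw [h1]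
  exact sq_sum_le_card_mul_sum_sq

theorem le_shapesS (G : Geo k K) [Finite k] {g : ℕ} (hg : 1 ≤ g)
    (hp : ((2 * g + 1).factorial : k) ≠ 0) (S : Finset (Place k K))
    (Z : (v : Place k K) → Set (Fin (2 * g) → ResidueField v.ring))
    (hZ : ∀ v ∈ S, (Z v).Nonempty) {v₀ : Place k K} (hv₀ : v₀ ∉ S) {c₀ : ℝ} (hc₀ : 0 < c₀)
    (hA : c₀ * Nat.card (Fin (2 * g) → ResidueField v₀.ring) ≤
      {y : Fin (2 * g) → ResidueField v₀.ring | TypA (pol g y)}.ncard) :
    ∃ c : ℝ, 0 < c ∧ ∃ M₀ : ℕ, ∀ M ≥ M₀, c * (Nat.card k : ℝ) ^ (wt g * M) ≤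
      (Shapes k K g M fun a => ∀ v ∈ S, IntV v a ∧ redV v a ∈ Z v).ncard := by
  classical
  obtain ⟨h, d₀, hrep⟩ := exists_reps_deg (k := k) (K := K) G
  obtain ⟨C₁, hsv⟩ := sieve G g (insert v₀ S)
  obtain ⟨C₃, hex⟩ := exists_box G g {v₀}
  obtain ⟨B₁, hB₁, C₂, hbox⟩ := le_card_Box G g
  obtain ⟨B₂, hpairs⟩ := card_pairs G hg
  obtain ⟨h', d₁, hsh⟩ := shapes_le G hg
  have hq1 : 1 < Nat.card k := Finite.one_lt_card
  have hq : (1 : ℝ) ≤ Nat.card k := by exact_mod_cast hq1.le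
  have hq0 : (0 : ℝ) < Nat.card k := by linarith
  have hB₁' : (0 : ℝ) < B₁ := by exact_mod_cast hB₁
  have hrf : ∀ v : Place k K, Finite (ResidueField v.ring) := fun v => finite_res G v
  have hcf : ∀ v : Place k K, (0 : ℝ) < Nat.card (Fin (2 * g) → ResidueField v.ring) := fun v => by
    have := hrf v
    exact_mod_cast (Nat.card_pos : 0 < Nat.card (Fin (2 * g) → ResidueField v.ring))
  obtain ⟨c₁, hc₁, hc₁'⟩ : ∃ c₁ : ℝ, 0 < c₁ ∧
      c₁ ≤ ∏ v ∈ S, ((Z v).ncard : ℝ) / Nat.card (Fin (2 * g) → ResidueField v.ring) := by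
    refine ⟨_, Finset.prod_pos fun v hv => ?_, le_refl _⟩
    have := hrf v
    have h1 : 0 < (Z v).ncard := (Set.ncard_pos (Set.toFinite _)).2 (hZ v hv)
    exact div_pos (by exact_mod_cast h1) (hcf v)
  obtain ⟨c₂, hc₂, hc₂'⟩ : ∃ c₂ : ℝ, 0 < c₂ ∧ c₂ = c₀ * c₁ := ⟨_, mul_pos hc₀ hc₁, rfl⟩
  refine ⟨c₂ ^ 2 / (B₁ ^ 2 * (B₂ + 1) * (Nat.card k : ℝ) ^ (wt g * d₀)), by positivity,
    d₀ + C₁.toNat + C₂.toNat + C₃.toNat, fun M hM => ?_⟩
  -- the divisor
  obtain ⟨D, hDS, hD1, hD2⟩ : ∃ D : Place k K →₀ ℤ, (∀ v ∈ insert v₀ S, D v = 0) ∧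
      ((M - d₀ : ℕ) : ℤ) ≤ degD D ∧ degD D ≤ M := by
    obtain ⟨R, -, hR, hR'⟩ := hrep (insert v₀ S) (M - d₀)
    obtain ⟨D', hD', -⟩ := hR' 0 (by
      have h0 : degD (0 : Place k K →₀ ℤ) = 0 := Finsupp.sum_zero_index
      rw [h0]
      positivity)
    obtain ⟨h1, h2, h3⟩ := hR D' hD'
    refine ⟨D', h1, h2, h3.trans ?_⟩
    omega
  have hD0 : D v₀ = 0 := hDS v₀ (Finset.mem_insert_self _ _)
  set n : ℕ := (degD D).toNat with hn
  have hDn : 0 ≤ degD D := le_trans (by positivity) hD1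
  have hnD : (n : ℤ) = degD D := Int.toNat_of_nonneg hDn
  have hMn : M ≤ n + d₀ := by omega
  -- the vectors which are irreducible at the place
  let A : Set (Fin (2 * g) → K) := {a | (a ∈ Box g D ∧ At v₀ TypA a) ∧ ∀ v ∈ S, redV v a ∈ Z v}
  have hBfin : (Box g D : Set (Fin (2 * g) → K)).Finite := Set.finite_coe_iff.1 (finite_Box G g D)
  have hAfin : A.Finite := hBfin.subset fun a ha => ha.1.1
  have hAcard : c₂ * Nat.card (Box g D) ≤ (A.ncard : ℝ) := by
    have h1 := hsv D hDS (by omega)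
      (fun v => if v = v₀ then {y | TypA (pol g y)} else Z v)
    have hne : ∀ v ∈ S, v ≠ v₀ := fun v hv h => hv₀ (h ▸ hv)
    rw [Finset.prod_insert hv₀, if_pos rfl,
      Finset.prod_congr rfl (fun v hv => by rw [if_neg (hne v hv)])] at h1
    have h2 : {a : Fin (2 * g) → K | a ∈ Box g D ∧
        ∀ v ∈ insert v₀ S, redV v a ∈ (if v = v₀ then {y | TypA (pol g y)} else Z v)} = A := by
      ext a
      simp only [Set.mem_ofPred_eq, A, At]
      constructor
      · rintro ⟨h3, h4⟩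
        have h5 := h4 v₀ (Finset.mem_insert_self _ _)
        rw [if_pos rfl] at h5
        refine ⟨⟨h3, intV_of_mem_Box h3 hD0, h5⟩, fun v hv => ?_⟩
        have h6 := h4 v (Finset.mem_insert_of_mem hv)
        rwa [if_neg (hne v hv)] at h6
      · rintro ⟨⟨h3, -, h4⟩, h5⟩
        refine ⟨h3, fun v hv => ?_⟩
        rcases Finset.mem_insert.1 hv with rfl | hv'
        · rw [if_pos rfl]
          exact h4
        · rw [if_neg (hne v hv')]
          exact h5 v hv'
    rw [h2] at h1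
    rw [h1, mul_comm c₂, hc₂']
    refine mul_le_mul_of_nonneg_left ?_ (Nat.cast_nonneg _)
    refine mul_le_mul ?_ hc₁' hc₁.le (by positivity)
    rw [le_div_iff₀ (hcf v₀)]
    exact hA
  -- the image
  let AF : Finset (Fin (2 * g) → K) := hAfin.toFinset
  let f : (Fin (2 * g) → K) → Shp K g := fun a => Quotient.mk (scRel K g) a
  have hAF : A.ncard = AF.card := Set.ncard_eq_toFinset_card A hAfin
  have hne : ∀ a ∈ AF, a ≠ 0 := fun a ha =>
    (md_eq_zero_A hg ((hAfin.mem_toFinset.1 ha).1.2)).1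
  have himg : ((AF.image f).card : ℝ) ≤ ((Shapes k K g M fun a => ∀ v ∈ S, IntV v a ∧ redV v a ∈ Z v).ncard : ℝ) := by
    obtain ⟨R, -, -, hR⟩ := hsh ∅ M
    have hfin := (hR (fun _ => True) fun _ _ _ _ => trivial).1
    have h1 : ((AF.image f : Finset (Shp K g)) : Set (Shp K g)) ⊆
        Shapes k K g M fun a => ∀ v ∈ S, IntV v a ∧ redV v a ∈ Z v := by
      intro z hz
      rw [Finset.mem_coe, Finset.mem_image] at hz
      obtain ⟨a, ha, rfl⟩ := hz
      have h2 := hAfin.mem_toFinset.1 ha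
      have h2' := h2.2
      have h2 := h2.1
      refine ⟨a, rfl, LowS_separable hp (LowS_irreducible h2.2), ?_, ?_⟩
      · exact (hgt_le_degD G (hne a ha) h2.1).trans hD2
      · exact fun v hv => ⟨intV_of_mem_Box h2.1 (hDS v (Finset.mem_insert_of_mem hv)), h2' v hv⟩
    have h3 := Set.ncard_le_ncard h1 (hfin.subset ?_)
    · rw [Set.ncard_coe_finset] at h3
      exact_mod_cast h3
    · rintro z ⟨a, h4, h5, h6, -⟩
      exact ⟨a, h4, h5, h6, trivial⟩
  -- the pairs
  obtain ⟨hPfin, hPcard⟩ := hpairs D hDn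
  have hpr : (((AF ×ˢ AF).filter fun p => f p.1 = f p.2).card : ℝ) ≤
      B₂ * (Nat.card k : ℝ) ^ (wt g * n) := by
    have h1 : (AF ×ˢ AF).filter (fun p => f p.1 = f p.2) ⊆
        hPfin.toFinset.image fun p => (p.1, sc p.2 p.1) := by
      rintro ⟨a, b⟩ hab
      rw [Finset.mem_filter, Finset.mem_product] at hab
      obtain ⟨⟨ha, hb⟩, hab'⟩ := hab
      obtain ⟨u, hu, hub⟩ : ∃ u : K, u ≠ 0 ∧ b = sc u a := Quotient.exact hab'
      rw [Finset.mem_image]
      refine ⟨(a, u), ?_, by rw [hub]⟩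
      rw [hPfin.mem_toFinset]
      refine ⟨hne a ha, (hAfin.mem_toFinset.1 ha).1.1, hu, ?_⟩
      change sc u a ∈ Box g D
      rw [← hub]
      exact (hAfin.mem_toFinset.1 hb).1.1
    have h2 := (Finset.card_le_card h1).trans Finset.card_image_le
    rw [← Set.ncard_eq_toFinset_card _ hPfin] at h2
    exact_mod_cast h2.trans hPcard
  have hcs : (AF.card : ℝ) ^ 2 ≤ ((AF.image f).card : ℝ) *
      (((AF ×ˢ AF).filter fun p => f p.1 = f p.2).card : ℝ) := by
    exact_mod_cast LowS_cs AF f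
  -- the size of the box
  have hbx : (Nat.card k : ℝ) ^ (wt g * n) ≤ B₁ * Nat.card (Box g D) := by
    exact_mod_cast hbox D (by omega)
  set Q : ℝ := (Nat.card k : ℝ) ^ (wt g * n) with hQ
  have hQ0 : 0 < Q := by positivity
  have h1 : c₂ * Q / B₁ ≤ (AF.card : ℝ) := by
    rw [← hAF]
    refine le_trans ?_ hAcard
    rw [mul_div_assoc]
    refine mul_le_mul_of_nonneg_left ?_ hc₂.le
    rw [div_le_iff₀ hB₁', mul_comm]
    exact hbx
  have h2 : (c₂ * Q / B₁) ^ 2 ≤ ((AF.image f).card : ℝ) * ((B₂ + 1) * Q) := by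
    refine le_trans (pow_le_pow_left₀ (by positivity) h1 2) (hcs.trans ?_)
    refine mul_le_mul_of_nonneg_left (hpr.trans ?_) (Nat.cast_nonneg _)
    nlinarith
  have h3 : c₂ ^ 2 / (B₁ ^ 2 * (B₂ + 1)) * Q ≤ ((AF.image f).card : ℝ) := by
    have h4 : c₂ ^ 2 / (B₁ ^ 2 * (B₂ + 1)) * Q * ((B₂ + 1) * Q) = (c₂ * Q / B₁) ^ 2 := by
      field_simp
    have h5 : 0 < (B₂ + 1) * Q := by positivity
    rw [← h4] at h2
    exact le_of_mul_le_mul_right h2 h5
  refine le_trans ?_ (h3.trans himg)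
  have h6 : (Nat.card k : ℝ) ^ (wt g * M) ≤ (Nat.card k : ℝ) ^ (wt g * d₀) * Q := by
    rw [hQ, ← pow_add]
    refine pow_le_pow_right₀ hq ?_
    rw [← Nat.mul_add]
    refine Nat.mul_le_mul_left _ ?_
    omega
  have h7 : 0 < (Nat.card k : ℝ) ^ (wt g * d₀) := by positivity
  calc c₂ ^ 2 / (B₁ ^ 2 * (B₂ + 1) * (Nat.card k : ℝ) ^ (wt g * d₀)) *
        (Nat.card k : ℝ) ^ (wt g * M)
      ≤ c₂ ^ 2 / (B₁ ^ 2 * (B₂ + 1) * (Nat.card k : ℝ) ^ (wt g * d₀)) *
        ((Nat.card k : ℝ) ^ (wt g * d₀) * Q) :=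
        mul_le_mul_of_nonneg_left h6 (by positivity)
    _ = c₂ ^ 2 / (B₁ ^ 2 * (B₂ + 1)) * Q := by
        field_simp


end Pool.Agent.TTA
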