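import Pool.Agent.Lib.TTA.Dens
import Pool.Agent.Lib.TTA.Disc
import Pool.Agent.Lib.TTA.Frame
import Pool.Agent.Lib.TTN.NestS
import Pool.Agent.Lib.HA.Main
import Pool.Agent.Lib.HA.FixH

/-!
# Project TTA (MP_950c68_ag), module Nest: all n-tuples of elliptic curves

For almost all elliptic curves `E` the family of the given independent curves and `E` is again
independent and satisfies `Tup` (`nest_step` for the twists of a generic shape, `fam_genQ`,
`most_ind`); induction.
-/

set_option autoImplicit false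

open Polynomial Pool.Agent.SmN.Stm

namespace Pool.Agent.TTA

open Pool.Agent.BSDFF (Place)
open Pool.Agent.HA Pool.Agent.TTN
open Pool.Agent.GBC (exists_geo exists_ratFunc)
open Pool.Agent.SmN.Fnl (TwLE cst finite_cst essFinite_cst trdeg_cst const_cst finrank_pos
  twLE_const)

section tup

variable {k K : Type} [Field k] [Field K] [Algebra k K] {ι κ : Type} {A B : ι → K}

/-- The curves are independent and satisfy `Tup`. -/
def IT (k : Type) {K : Type} [Field k] [Field K] [Algebra k K] {ι : Type} (A B : ι → K) : Prop :=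
  Indep k A B ∧ Tup k A B

theorem it_comp (h : IT k A B) {e : κ → ι} (he : Function.Injective e) :
    IT k (fun i => A (e i)) (fun i => B (e i)) := by
  refine ⟨⟨fun i => h.1.root (e i), fun J hJ c s hc hs => h.1.disc (J.map ⟨e, he⟩)
    (Finset.map_nonempty.2 hJ) c s hc ?_⟩, fun m g hg ho hm =>
    h.2.tensor m (fun j => e (g j)) (he.comp hg) ho hm, fun i => h.2.ord (e i)⟩
  rw [Finset.prod_map]
  exact hs

/-- One more curve. -/
theorem indep_option (h : Indep k A B) {a b : K} (hr : ∀ x, x ^ 3 + a * x + b ≠ 0)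
    (hd : ∀ (J : Finset ι) (c s : K), IsAlgebraic k c →
      (∏ i ∈ J, (-4 * A i ^ 3 - 27 * B i ^ 2)) * (-4 * a ^ 3 - 27 * b ^ 2) ≠ c * s ^ 2) :
    Indep k (fun i : Option ι => i.elim a A) (fun i : Option ι => i.elim b B) := by
  classical
  refine ⟨fun i x => ?_, fun J hJ c s hc hs => ?_⟩
  · rcases i with _ | i
    · exact hr x
    · exact h.root i x
  · by_cases hn : none ∈ J
    · have h1 : J = Finset.insertNone (Finset.eraseNone J) := by
        rw [Finset.insertNone_eraseNone, Finset.insert_eq_of_mem hn]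
      rw [h1, Finset.prod_insertNone, mul_comm] at hs
      exact hd _ c s hc hs
    · have h1 : J = (Finset.eraseNone J).map Function.Embedding.some := by
        rw [Finset.map_some_eraseNone, Finset.erase_eq_of_notMem hn]
      rw [h1] at hJ
      rw [h1, Finset.prod_map] at hs
      exact h.disc _ (Finset.map_nonempty.1 hJ) c s hc hs

/-- No more curves. -/
theorem it_zero {A₀ B₀ : ι → K} (hT : IT k A₀ B₀) :
    IT k (Sum.elim A₀ Fin.elim0) (Sum.elim B₀ Fin.elim0) := by
  have he : Function.Injective (Sum.elim id Fin.elim0 : ι ⊕ Fin 0 → ι) := by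
    rintro (x | x) (y | y) h
    · exact congrArg Sum.inl h
    · exact y.elim0
    · exact x.elim0
    · exact x.elim0
  have h1 := it_comp hT he
  have h2 : ∀ C : ι → K, (Sum.elim C Fin.elim0 : ι ⊕ Fin 0 → K) =
      fun i => C (Sum.elim id Fin.elim0 i) := by
    intro C
    funext i
    rcases i with i | i
    · rfl
    · exact i.elim0
  rw [h2 A₀, h2 B₀]
  exact h1

/-- Reindexing. -/
theorem it_cons {n : ℕ} {A₀ B₀ : ι → K} {a b : K} {A B : Fin n → K}
    (h : IT k (Sum.elim (fun i : Option ι => i.elim a A₀) A)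
      (Sum.elim (fun i : Option ι => i.elim b B₀) B)) :
    IT k (Sum.elim A₀ (Fin.cons a A)) (Sum.elim B₀ (Fin.cons b B)) := by
  have he : Function.Injective (Sum.elim (fun i => Sum.inl (some i))
      (Fin.cons (Sum.inl none) fun j => Sum.inr j) : ι ⊕ Fin (n + 1) → Option ι ⊕ Fin n) := by
    rintro (x | x) (y | y) h
    · have h3 : (Sum.inl (some x) : Option ι ⊕ Fin n) = Sum.inl (some y) := h
      rw [Sum.inl.injEq, Option.some.injEq] at h3
      rw [h3]
    · refine Fin.cases (fun h => ?_) (fun y h => ?_) y h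
      · have h3 : (Sum.inl (some x) : Option ι ⊕ Fin n) = Sum.inl none := h
        exact absurd (Sum.inl_injective h3) (by simp)
      · have h3 : (Sum.inl (some x) : Option ι ⊕ Fin n) = Sum.inr y := h
        exact absurd h3 (by simp)
    · refine Fin.cases (fun h => ?_) (fun x h => ?_) x h
      · have h3 : (Sum.inl none : Option ι ⊕ Fin n) = Sum.inl (some y) := h
        exact absurd (Sum.inl_injective h3) (by simp)
      · have h3 : (Sum.inr x : Option ι ⊕ Fin n) = Sum.inl (some y) := h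
        exact absurd h3 (by simp)
    · refine Fin.cases (fun h => ?_) (fun x h => ?_) x h
      · refine Fin.cases (fun _ => rfl) (fun y h => ?_) y h
        have h3 : (Sum.inl none : Option ι ⊕ Fin n) = Sum.inr y := h
        exact absurd h3 (by simp)
      · refine Fin.cases (fun h => ?_) (fun y h => ?_) y h
        · have h3 : (Sum.inr x : Option ι ⊕ Fin n) = Sum.inl none := h
          exact absurd h3 (by simp)
        · have h3 : (Sum.inr x : Option ι ⊕ Fin n) = Sum.inr y := h
          rw [Sum.inr_injective h3]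
  have h3 := it_comp h he
  have h4 : ∀ (C : ι → K) (c : K) (D : Fin n → K),
      (Sum.elim C (Fin.cons c D) : ι ⊕ Fin (n + 1) → K) = fun i =>
        Sum.elim (fun i : Option ι => i.elim c C) D (Sum.elim (fun i => Sum.inl (some i))
          (Fin.cons (Sum.inl none) fun j => Sum.inr j) i) := by
    intro C c D
    funext i
    rcases i with i | i
    · rfl
    · refine Fin.cases ?_ (fun j => ?_) i
      · rfl
      · rfl
  rw [h4 A₀, h4 B₀]
  exact h3

end tup

section twist

variable {k K : Type} [Field k] [Field K] [Algebra k K] {ι : Type} {A B : ι → K}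

private theorem Nest_tw (h : Indep k A B) {a b d : K} (hd0 : d ≠ 0)
    (hr : ∀ x, x ^ 3 + a * x + b ≠ 0)
    (hd : ∀ (J : Finset ι) (c s : K), IsAlgebraic k c →
      (∏ i ∈ J, (-4 * A i ^ 3 - 27 * B i ^ 2)) * (-4 * a ^ 3 - 27 * b ^ 2) ≠ c * s ^ 2) :
    Indep k (fun i : Option ι => i.elim (a * d ^ 2) A)
      (fun i : Option ι => i.elim (b * d ^ 3) B) := by
  refine indep_option h (fun x hx => hr (x / d) ?_) fun J c s hc hs => hd J c (s / d ^ 3) hc ?_
  · have h1 : (x / d) ^ 3 + a * (x / d) + b =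
        (x ^ 3 + a * d ^ 2 * x + b * d ^ 3) / d ^ 3 := by
      field_simp
    rw [h1, hx, zero_div]
  · have h1 : c * (s / d ^ 3) ^ 2 = c * s ^ 2 / d ^ 6 := by
      field_simp
    rw [h1, ← hs]
    field_simp

end twist

section mono

variable {k K : Type} [Field k] [Field K] [Algebra k K]

private theorem Nest_mono1 (hfin : ∀ M N, (Fam k K 1 M N fun _ => True).Finite)
    {P Q : K → K → Prop} (h : ∀ a b, P a b → Q a b) (hP : AlmostAllE k P) : AlmostAllE k Q := by
  intro ε hε
  obtain ⟨M₀, h1⟩ := hP ε hε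
  refine ⟨M₀, fun M hM => ?_⟩
  obtain ⟨N₀, h2⟩ := h1 M hM
  refine ⟨N₀, fun N hN => ⟨(h2 N hN).1, le_trans (Nat.cast_le.2 (Set.ncard_le_ncard ?_ ?_))
    (h2 N hN).2⟩⟩
  · rintro C ⟨a, h3, h4, h5, h6, h7⟩
    exact ⟨a, h3, h4, h5, h6, fun h8 => h7 (h _ _ h8)⟩
  · refine (hfin M N).subset ?_
    rintro C ⟨a, h3, h4, h5, h6, -⟩
    exact ⟨a, h3, h4, h5, h6, trivial⟩

theorem nestedE_mono (hfin : ∀ M N, (Fam k K 1 M N fun _ => True).Finite) :
    ∀ {n : ℕ} {P Q : (Fin n → K) → (Fin n → K) → Prop}, (∀ A B, P A B → Q A B) →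
      NestedE k n P → NestedE k n Q
  | 0, _, _, h, h1 => h _ _ h1
  | _ + 1, _, _, h, h1 =>
    Nest_mono1 hfin (fun _ _ h2 => nestedE_mono hfin (fun _ _ => h _ _) h2) h1

end mono

section main

variable (k K : Type) [Field k] [Finite k] [Field K] [Algebra k K] [Algebra.EssFiniteType k K]

omit [Finite k] [Algebra.EssFiniteType k K] [Algebra k K] [Field K] in
private theorem Nest_fac (h6 : (6 : k) ≠ 0) : ((2 * 1 + 1).factorial : k) ≠ 0 := by
  have h1 : (2 * 1 + 1).factorial = 6 := rfl
  rw [h1]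
  exact_mod_cast h6

/-- From the ordering of the twists over `k` to that over the field of constants. -/
private theorem Nest_twLE (hK : Algebra.trdeg k K = 1) {P : K → Prop}
    (h : AlmostAll k fun _ (d : K) => P d) (ε : ℝ) (hε : 0 < ε) :
    ∃ j₀ : ℕ, ∀ j ≥ j₀, ∃ N₀ : ℕ, ∀ N ≥ N₀,
      ((TwLE (cst k K) N fun d : K => ¬ P d).ncard : ℝ) ≤
        ε * (TwLE (cst k K) N (fun _ : K => True)).ncard := by
  have := finite_cst k K hK
  obtain ⟨_, N₀, h1⟩ := h ε hε
  have hn := finrank_pos k (cst k K)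
  refine ⟨0, fun _ _ => ⟨N₀, fun N hN => ?_⟩⟩
  have h2 := h1 (Module.finrank k (cst k K) * N)
    (hN.trans (Nat.le_mul_of_pos_left _ hn))
  unfold num at h2
  rw [SmNH.Fnl.twists_self, SmNH.Fnl.twists_self, twLE_const k (cst k K),
    twLE_const k (cst k K), Nat.mul_div_cancel_left _ hn] at h2
  exact h2

/-- One more elliptic curve. -/
theorem curve_step (hK : Algebra.trdeg k K = 1) (h6 : (6 : k) ≠ 0) {ι : Type} [Finite ι]
    {A B : ι → K} (hI : Indep k A B) (hT : Tup k A B) :
    AlmostAllE k fun a b =>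
      Indep k (fun i : Option ι => i.elim a A) (fun i : Option ι => i.elim b B) ∧
      Tup k (fun i : Option ι => i.elim a A) (fun i : Option ι => i.elim b B) := by
  classical
  have := finite_cst k K hK
  have := essFinite_cst k K
  have h1 := trdeg_cst k K hK
  have : PerfectField (cst k K) := inferInstance
  obtain ⟨alg, h2, h3, h4⟩ := exists_ratFunc (cst k K) K h1
  have h6' : (6 : cst k K) ≠ 0 := by
    intro h
    apply h6
    apply (algebraMap k (cst k K)).injective
    rw [map_ofNat, map_zero]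
    exact h
  have hp' : ((2 * 1 + 1).factorial : cst k K) ≠ 0 := Nest_fac (cst k K) h6'
  have hk : ∀ x : K, IsIntegral (cst k K) x → ∃ c : cst k K, algebraMap (cst k K) K c = x :=
    fun x hx => const_cst k K x (SmBU.isIntegral_iff_isC.1 hx)
  obtain ⟨G, -⟩ := exists_geo (cst k K) K
  -- the products of the discriminants
  have hne : ∀ i, -4 * A i ^ 3 - 27 * B i ^ 2 ≠ 0 := by
    intro i h
    refine hI.disc {i} (Finset.singleton_nonempty _) 1 0 isAlgebraic_one ?_
    rw [Finset.prod_singleton, h]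
    ring
  have hfi : Finite (Finset ι) := inferInstance
  set e := Finite.equivFin (Finset ι) with he
  set δ : Fin (Nat.card (Finset ι)) → K :=
    fun j => ∏ i ∈ e.symm j, (-4 * A i ^ 3 - 27 * B i ^ 2) with hδ
  have hδ0 : ∀ j, δ j ≠ 0 := fun j => Finset.prod_ne_zero_iff.2 fun i _ => hne i
  -- a generic shape
  have hgenI : ∀ b : Fin (2 * 1) → K, (∃ v : Place (cst k K) K, At v TypA b) →
      (∀ j, IndS (cst k K) (δ j) b) → (∀ x, x ^ 3 + b 0 * x + b 1 ≠ 0) ∧
        ∀ (J : Finset ι) (c s : K), IsAlgebraic k c →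
          (∏ i ∈ J, (-4 * A i ^ 3 - 27 * B i ^ 2)) * (-4 * b 0 ^ 3 - 27 * b 1 ^ 2) ≠
            c * s ^ 2 := by
    intro b hA hQ
    refine ⟨fun x => root_ne hA x, fun J c s hc hs => ?_⟩
    have h5 := disc_ind hk h6' (hQ (e J)) c s (hc.tower_top (cst k K))
    apply h5
    rw [hδ]
    beta_reduce
    rw [Equiv.symm_apply_apply]
    exact hs
  have key := fam_genQ (k := cst k K) (K := K) (g := 1) hk le_rfl hp'
    (fun a => ∀ j, IndS (cst k K) (δ j) a)
    (fun a => Indep k (fun i : Option ι => i.elim (a 0) A) (fun i : Option ι => i.elim (a 1) B) ∧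
      Tup k (fun i : Option ι => i.elim (a 0) A) (fun i : Option ι => i.elim (a 1) B))
    (fun u a hu ha j => by
      obtain ⟨w, hw, v, hv, hv1, hv2, hv3, hv4⟩ := ha j
      refine ⟨w * u⁻¹, mul_ne_zero hw (inv_ne_zero hu), v, hv, hv1, hv2, ?_, ?_⟩
      · rw [sc_sc, mul_assoc, inv_mul_cancel₀ hu, mul_one]
        exact hv3
      · rw [sc_sc, mul_assoc, inv_mul_cancel₀ hu, mul_one]
        exact hv4)
    (fun ε hε => most_ind hk h6' δ hδ0 ε hε)
    (fun b hb hgen hQ ε hε => by
      obtain ⟨hr, hd⟩ := hgenI b hgen.A hQ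
      have hIb := indep_option hI hr hd
      have hst := nest_step k K hK h6 (A := fun i : Option ι => i.elim (b 0) A)
        (B := fun i : Option ι => i.elim (b 1) B) hIb hT
      have hO := Od_finite G (ne_zero_of_sep le_rfl hb)
      have h2' : (2 : cst k K) ≠ 0 := Pool.Agent.SmN.Fnl.two_ne_of (g := 1) le_rfl hp'
      obtain ⟨j₀, h5⟩ := twO_of_twLE h2' hk hO
        (Bad := fun _ d => ¬ Tup k (fun i : Option ι => i.elim (b 0 * d ^ 2) A)
          (fun i : Option ι => i.elim (b 1 * d ^ 3) B))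
        (fun ε hε => Nest_twLE k K hK hst ε hε) ε hε
      obtain ⟨N₀, h7⟩ := h5 j₀ le_rfl
      refine ⟨N₀, fun N hN => le_trans ?_ (h7 N hN)⟩
      refine Nat.cast_le.2 (Set.ncard_le_ncard (TwO_mono_unit fun d hd1 hd2 => hd1 ?_)
        ((finite_TwO hO N).subset (TwO_mono fun _ _ => trivial)))
      have e0 : sc (d : K) b 0 = b 0 * (d : K) ^ 2 := mul_comm _ _
      have e1 : sc (d : K) b 1 = b 1 * (d : K) ^ 3 := mul_comm _ _
      rw [e0, e1]
      exact ⟨Nest_tw hI d.ne_zero hr hd, hd2⟩)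
  have hn := finrank_pos k (cst k K)
  intro ε hε
  obtain ⟨M₀, h7⟩ := key ε hε
  refine ⟨M₀ * Module.finrank k (cst k K), fun M hM => ?_⟩
  obtain ⟨N₀, h8⟩ := h7 (M / Module.finrank k (cst k K)) ((Nat.le_div_iff_mul_le hn).2 hM)
  refine ⟨N₀ * Module.finrank k (cst k K), fun N hN => ?_⟩
  have h9 := h8 (N / Module.finrank k (cst k K)) ((Nat.le_div_iff_mul_le hn).2 hN)
  rw [fam_const k (cst k K), fam_const k (cst k K)]
  exact h9

private theorem Nest_gen (hK : Algebra.trdeg k K = 1) (h6 : (6 : k) ≠ 0)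
    (hfin : ∀ M N, (Fam k K 1 M N fun _ => True).Finite) :
    ∀ (n : ℕ) {ι : Type} [Finite ι] {A₀ B₀ : ι → K}, IT k A₀ B₀ →
      NestedE k n fun (A B : Fin n → K) => IT k (Sum.elim A₀ A) (Sum.elim B₀ B)
  | 0, _, _, _, _, h => it_zero h
  | n + 1, _, _, _, _, h =>
    Nest_mono1 hfin (fun _ _ hab => nestedE_mono hfin (fun _ _ h2 => it_cons h2)
      (Nest_gen hK h6 hfin n hab)) (curve_step k K hK h6 h.1 h.2)

omit [Finite k] [Algebra.EssFiniteType k K] in
/-- The empty tuple. -/
theorem it_empty : IT k (Empty.elim : Empty → K) (Empty.elim : Empty → K) := by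
  refine ⟨⟨fun i => i.elim, fun J hJ => ?_⟩, fun m g hg ho hm => ?_, fun i => i.elim⟩
  · obtain ⟨x, -⟩ := hJ
    exact x.elim
  · exact (g ⟨0, by omega⟩).elim

/-- **All `n`-tuples of elliptic curves.** -/
theorem nested_curves (hK : Algebra.trdeg k K = 1) (h6 : (6 : k) ≠ 0) (n : ℕ) :
    (∀ M N, (Fam k K 1 M N fun _ => True).Finite) ∧
    NestedE k n fun (A B : Fin n → K) => IT k A B := by
  have hfin : ∀ M N, (Fam k K 1 M N fun _ => True).Finite :=
    (fam_main k K hK (g := 1) le_rfl (Nest_fac k h6)).1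
  exact ⟨hfin, nestedE_mono hfin (fun A B h3 => it_comp h3 (e := Sum.inr) Sum.inr_injective)
    (Nest_gen k K hK h6 hfin n (it_empty k K))⟩

end main

end Pool.Agent.TTA
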